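import Pool.Agent.Helper14.LC.Df

/-! # Block C of LT: submultiplicative functions and determinants -/

namespace Pool.Agent.Helper14.LC

open Polynomial

section

variable {R : Type} [CommRing R] {N : R → ℝ}

theorem IsNm.sum_le (h : IsNm N) {ι : Type*} (s : Finset ι) (f : ι → R) :
    N (∑ i ∈ s, f i) ≤ ∑ i ∈ s, N (f i) := by
  classical
  induction s using Finset.induction_on with
  | empty => simp [h.zero]
  | insert a s ha ih =>
    rw [Finset.sum_insert ha, Finset.sum_insert ha]
    exact (h.add _ _).trans (by linarith)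

theorem IsNm.prod_le (h : IsNm N) {ι : Type*} (s : Finset ι) (f : ι → R) :
    N (∏ i ∈ s, f i) ≤ ∏ i ∈ s, N (f i) := by
  classical
  induction s using Finset.induction_on with
  | empty => simpa using h.one
  | insert a s ha ih =>
    rw [Finset.prod_insert ha, Finset.prod_insert ha]
    exact (h.mul _ _).trans (mul_le_mul_of_nonneg_left ih (h.nn _))

theorem IsNm.pow_le (h : IsNm N) (x : R) (k : ℕ) : N (x ^ k) ≤ N x ^ k := by
  have := h.prod_le (Finset.range k) (fun _ => x)
  simpa using this

theorem IsNm.natCast_le (h : IsNm N) (k : ℕ) : N (k : R) ≤ k := by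
  induction k with
  | zero => simp [h.zero]
  | succ k ih =>
    push_cast
    exact (h.add _ _).trans (by linarith [h.one])

theorem IsNm.intCast_le (h : IsNm N) (k : ℤ) : N (k : R) ≤ |(k : ℝ)| := by
  rcases Int.eq_nat_or_neg k with ⟨n, rfl | rfl⟩
  · simpa using h.natCast_le n
  · have := h.natCast_le n
    push_cast
    rw [h.neg]
    simpa using this

theorem IsNm.sub (h : IsNm N) (x y : R) : N (x - y) ≤ N x + N y := by
  rw [sub_eq_add_neg]
  exact (h.add _ _).trans (by rw [h.neg])

/-- determinant bound by the row sums -/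
theorem IsNm.det_le (h : IsNm N) {ι : Type*} [Fintype ι] [DecidableEq ι] (X : Matrix ι ι R) :
    N X.det ≤ ∏ i, ∑ j, N (X i j) := by
  classical
  rw [← Matrix.det_transpose, Matrix.det_apply]
  refine (h.sum_le _ _).trans ?_
  have h1 : ∀ s : Equiv.Perm ι, N (Equiv.Perm.sign s • ∏ i, X.transpose (s i) i) ≤
      ∏ i, N (X i (s i)) := by
    intro s
    have h2 : N (∏ i, X.transpose (s i) i) ≤ ∏ i, N (X i (s i)) := by
      simpa [Matrix.transpose_apply] using h.prod_le Finset.univ (fun i => X i (s i))
    rcases Int.units_eq_one_or (Equiv.Perm.sign s) with hs | hs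
    · rw [hs, one_smul]; exact h2
    · rw [hs, Units.neg_smul, one_smul, h.neg]; exact h2
  refine (Finset.sum_le_sum fun s _ => h1 s).trans ?_
  rw [Finset.prod_univ_sum]
  rw [Fintype.piFinset_univ]
  have h3 : ∑ s : Equiv.Perm ι, ∏ i, N (X i (s i)) =
      ∑ p ∈ (Finset.univ : Finset (Equiv.Perm ι)).image (fun s : Equiv.Perm ι => (s : ι → ι)),
        ∏ i, N (X i (p i)) := by
    rw [Finset.sum_image]
    intro a _ b _ hab
    exact Equiv.coe_fn_injective hab
  rw [h3]
  exact Finset.sum_le_sum_of_subset_of_nonneg (Finset.subset_univ _)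
    (fun p _ _ => Finset.prod_nonneg fun i _ => h.nn _)

/-- small value: a vector with a coordinate 1 which is almost in the kernel -/
theorem IsNm.det_small (h : IsNm N) {ι : Type*} [Fintype ι] [DecidableEq ι] (X : Matrix ι ι R)
    (v : ι → R) (j0 : ι) (hv : v j0 = 1) :
    N X.det ≤ (∑ i, N ((X.mulVec v) i)) * ∏ k, (1 + ∑ j, N (X k j)) := by
  classical
  have h1 : X.det = ∑ i, (X.mulVec v) i * X.cramer (Pi.single i 1) j0 := by
    have h2 : X.cramer (X.mulVec v) j0 = X.det := by
      rw [Matrix.cramer_eq_adjugate_mulVec, Matrix.mulVec_mulVec, Matrix.adjugate_mul,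
        Matrix.smul_mulVec, Matrix.one_mulVec, Pi.smul_apply, hv, smul_eq_mul, mul_one]
    rw [← h2]
    conv_lhs => rw [pi_eq_sum_univ' (X.mulVec v)]
    rw [map_sum, Finset.sum_apply]
    refine Finset.sum_congr rfl fun i _ => ?_
    rw [map_smul, Pi.smul_apply, smul_eq_mul]
  rw [h1, Finset.sum_mul]
  refine (h.sum_le _ _).trans (Finset.sum_le_sum fun i _ => ?_)
  refine (h.mul _ _).trans (mul_le_mul_of_nonneg_left ?_ (h.nn _))
  rw [Matrix.cramer_apply]
  refine (h.det_le _).trans (Finset.prod_le_prod (fun k _ => Finset.sum_nonneg fun j _ => h.nn _)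
    fun k _ => ?_)
  rw [← Finset.add_sum_erase _ _ (Finset.mem_univ j0)]
  refine add_le_add ?_ ?_
  · rw [Matrix.updateCol_self, Pi.single_apply]
    split_ifs
    · exact h.one
    · rw [h.zero]; exact zero_le_one
  · calc ∑ j ∈ Finset.univ.erase j0, N (X.updateCol j0 (Pi.single i 1) k j)
        = ∑ j ∈ Finset.univ.erase j0, N (X k j) := by
          refine Finset.sum_congr rfl fun j hj => ?_
          rw [Matrix.updateCol_ne (Finset.ne_of_mem_erase hj)]
      _ ≤ ∑ j, N (X k j) := Finset.sum_le_sum_of_subset_of_nonneg (Finset.subset_univ _)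
          fun j _ _ => h.nn _

/-! ## the norm of the complex numbers and the absolute value of the integers -/

theorem isNm_norm : IsNm (fun z : ℂ => ‖z‖) where
  nn x := norm_nonneg x
  zero := norm_zero
  one := by simp
  neg x := norm_neg x
  add x y := norm_add_le x y
  mul x y := (norm_mul x y).le

theorem isNm_int : IsNm (fun z : ℤ => |(z : ℝ)|) where
  nn x := abs_nonneg _
  zero := by simp
  one := by simp
  neg x := by simp
  add x y := by push_cast; exact abs_add_le _ _
  mul x y := by push_cast; exact (abs_mul _ _).le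

/-! ## polynomials -/

theorem pN_eq_of_subset (h : IsNm N) (p : R[X]) (s : Finset ℕ) (hs : p.support ⊆ s) :
    pN N p = ∑ i ∈ s, N (p.coeff i) := by
  rw [pN]
  refine Finset.sum_subset hs fun i _ hi => ?_
  rw [notMem_support_iff.mp hi, h.zero]

theorem coeff_le_pN (h : IsNm N) (p : R[X]) (i : ℕ) : N (p.coeff i) ≤ pN N p := by
  by_cases hi : i ∈ p.support
  · exact Finset.single_le_sum (f := fun i => N (p.coeff i)) (fun i _ => h.nn _) hi
  · rw [notMem_support_iff.mp hi, h.zero]
    exact Finset.sum_nonneg fun i _ => h.nn _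

theorem sum_coeff_le_pN (h : IsNm N) (p : R[X]) (s : Finset ℕ) :
    ∑ i ∈ s, N (p.coeff i) ≤ pN N p := by
  rw [pN_eq_of_subset h p (p.support ∪ s) Finset.subset_union_left]
  exact Finset.sum_le_sum_of_subset_of_nonneg Finset.subset_union_right fun i _ _ => h.nn _

theorem pN_C (h : IsNm N) (a : R) : pN N (C a) = N a := by
  rw [pN_eq_of_subset h (C a) {0} (support_C_subset a)]
  simp

theorem pN_monomial (h : IsNm N) (n : ℕ) (a : R) : pN N (monomial n a) = N a := by
  rw [pN_eq_of_subset h (monomial n a) {n} (support_monomial_subset n a)]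
  simp

theorem isNm_pN (h : IsNm N) : IsNm (pN N) where
  nn p := Finset.sum_nonneg fun i _ => h.nn _
  zero := by simp [pN]
  one := by
    have := pN_C h 1
    rw [map_one] at this
    rw [this]; exact h.one
  neg p := by simp [pN, h.neg]
  add p q := by
    rw [pN_eq_of_subset h (p + q) (p.support ∪ q.support) support_add,
      pN_eq_of_subset h p (p.support ∪ q.support) Finset.subset_union_left,
      pN_eq_of_subset h q (p.support ∪ q.support) Finset.subset_union_right,
      ← Finset.sum_add_distrib]
    exact Finset.sum_le_sum fun i _ => by rw [coeff_add]; exact h.add _ _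
  mul p q := by
    have hadd : ∀ p q : R[X], pN N (p + q) ≤ pN N p + pN N q := by
      intro p q
      rw [pN_eq_of_subset h (p + q) (p.support ∪ q.support) support_add,
        pN_eq_of_subset h p (p.support ∪ q.support) Finset.subset_union_left,
        pN_eq_of_subset h q (p.support ∪ q.support) Finset.subset_union_right,
        ← Finset.sum_add_distrib]
      exact Finset.sum_le_sum fun i _ => by rw [coeff_add]; exact h.add _ _
    have hsum : ∀ (s : Finset ℕ) (f : ℕ → R[X]), pN N (∑ i ∈ s, f i) ≤ ∑ i ∈ s, pN N (f i) := by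
      intro s f
      classical
      induction s using Finset.induction_on with
      | empty => simp [pN]
      | insert a s ha ih =>
        rw [Finset.sum_insert ha, Finset.sum_insert ha]
        exact (hadd _ _).trans (by linarith)
    rw [mul_eq_sum_sum]
    refine (hsum _ _).trans ?_
    rw [show pN N p = ∑ i ∈ p.support, N (p.coeff i) from rfl, Finset.sum_mul]
    refine Finset.sum_le_sum fun i _ => ?_
    rw [Polynomial.sum]
    refine (hsum _ _).trans ?_
    rw [show pN N q = ∑ i ∈ q.support, N (q.coeff i) from rfl, Finset.mul_sum]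
    refine Finset.sum_le_sum fun j _ => ?_
    rw [pN_monomial h]
    exact h.mul _ _

theorem pN_X (h : IsNm N) : pN N (X : R[X]) ≤ 1 := by
  rw [← monomial_one_one_eq_X, pN_monomial h]
  exact h.one

theorem pN_nonneg (h : IsNm N) (p : R[X]) : 0 ≤ pN N p := (isNm_pN h).nn p

end

/-! ## the length on multivariate polynomials -/

section

variable {σ : Type}

theorem len_eq_of_subset (p : MvPolynomial σ ℤ) (s : Finset (σ →₀ ℕ)) (hs : p.support ⊆ s) :
    len p = ∑ i ∈ s, |((p.coeff i : ℤ) : ℝ)| := by
  rw [len]
  refine Finset.sum_subset hs fun i _ hi => ?_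
  rw [MvPolynomial.notMem_support_iff.mp hi]; simp

theorem len_monomial (m : σ →₀ ℕ) (a : ℤ) : len (MvPolynomial.monomial m a) = |(a : ℝ)| := by
  classical
  rw [len_eq_of_subset (MvPolynomial.monomial m a) {m} MvPolynomial.support_monomial_subset]
  simp

theorem len_C (a : ℤ) : len (MvPolynomial.C a : MvPolynomial σ ℤ) = |(a : ℝ)| := by
  rw [MvPolynomial.C_apply, len_monomial]

theorem len_X (i : σ) : len (MvPolynomial.X i : MvPolynomial σ ℤ) = 1 := by
  rw [MvPolynomial.X, len_monomial]; simp

theorem len_add (p q : MvPolynomial σ ℤ) : len (p + q) ≤ len p + len q := by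
  classical
  rw [len_eq_of_subset (p + q) (p.support ∪ q.support) MvPolynomial.support_add,
    len_eq_of_subset p (p.support ∪ q.support) Finset.subset_union_left,
    len_eq_of_subset q (p.support ∪ q.support) Finset.subset_union_right,
    ← Finset.sum_add_distrib]
  exact Finset.sum_le_sum fun i _ => by
    rw [MvPolynomial.coeff_add]; push_cast; exact abs_add_le _ _

theorem len_sum {ι : Type*} (s : Finset ι) (f : ι → MvPolynomial σ ℤ) :
    len (∑ i ∈ s, f i) ≤ ∑ i ∈ s, len (f i) := by
  classical
  induction s using Finset.induction_on with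
  | empty => simp [len]
  | insert a s ha ih =>
    rw [Finset.sum_insert ha, Finset.sum_insert ha]
    exact (len_add _ _).trans (by linarith)

theorem isNm_len : IsNm (len (σ := σ)) where
  nn p := Finset.sum_nonneg fun i _ => abs_nonneg _
  zero := by simp [len]
  one := by
    have := len_C (σ := σ) 1
    rw [map_one] at this
    rw [this]; simp
  neg p := by simp [len]
  add p q := len_add p q
  mul p q := by
    classical
    rw [MvPolynomial.mul_def]
    refine (len_sum _ _).trans ?_
    rw [show len p = ∑ i ∈ p.support, |((p.coeff i : ℤ) : ℝ)| from rfl, Finset.sum_mul]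
    refine Finset.sum_le_sum fun i _ => ?_
    refine (len_sum _ _).trans ?_
    rw [show len q = ∑ i ∈ q.support, |((q.coeff i : ℤ) : ℝ)| from rfl, Finset.mul_sum]
    refine Finset.sum_le_sum fun j _ => ?_
    rw [len_monomial]
    push_cast
    exact (abs_mul _ _).le

theorem len_nonneg (p : MvPolynomial σ ℤ) : 0 ≤ len p := isNm_len.nn p

theorem coeff_le_len (p : MvPolynomial σ ℤ) (m : σ →₀ ℕ) :
    |((p.coeff m : ℤ) : ℝ)| ≤ len p := by
  by_cases hi : m ∈ p.support
  · exact Finset.single_le_sum (f := fun i => |((p.coeff i : ℤ) : ℝ)|)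
      (fun i _ => abs_nonneg _) hi
  · rw [MvPolynomial.notMem_support_iff.mp hi]
    simpa using len_nonneg p

/-- evaluation bound -/
theorem IsNm.aeval_le {R : Type} [CommRing R] {N : R → ℝ} (h : IsNm N)
    (p : MvPolynomial σ ℤ) (x : σ → R) (M : ℝ) (hM : 1 ≤ M) (hx : ∀ i, N (x i) ≤ M) (D : ℕ)
    (hD : p.totalDegree ≤ D) : N (MvPolynomial.aeval x p) ≤ len p * M ^ D := by
  classical
  rw [MvPolynomial.aeval_eq_eval₂Hom, MvPolynomial.coe_eval₂Hom, MvPolynomial.eval₂_eq]
  refine (h.sum_le _ _).trans ?_
  rw [len, Finset.sum_mul]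
  refine Finset.sum_le_sum fun m hm => ?_
  refine (h.mul _ _).trans (mul_le_mul ?_ ?_ (h.nn _) (abs_nonneg _))
  · rw [eq_intCast]
    exact h.intCast_le _
  · refine (h.prod_le _ _).trans ?_
    calc ∏ i ∈ m.support, N (x i ^ m i) ≤ ∏ i ∈ m.support, M ^ m i := by
          refine Finset.prod_le_prod (fun i _ => h.nn _) fun i _ => ?_
          exact (h.pow_le _ _).trans (pow_le_pow_left₀ (h.nn _) (hx i) _)
      _ = M ^ (m.sum fun _ e => e) := by
          rw [Finset.prod_pow_eq_pow_sum]; rfl
      _ ≤ M ^ D := pow_le_pow_right₀ hM ((MvPolynomial.le_totalDegree hm).trans hD)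

/-- number of monomials of degree at most D -/
theorem card_support_le [Fintype σ] (p : MvPolynomial σ ℤ) (D : ℕ) (hD : p.totalDegree ≤ D) :
    p.support.card ≤ (D + 1) ^ Fintype.card σ := by
  classical
  have h1 : p.support.card ≤ (Fintype.piFinset fun _ : σ => Finset.range (D + 1)).card := by
    refine Finset.card_le_card_of_injOn (fun m => (m : σ → ℕ)) ?_ ?_
    · intro m hm
      rw [Finset.mem_coe, Fintype.mem_piFinset]
      intro i
      rw [Finset.mem_range]
      have h2 : m i ≤ m.sum fun _ e => e := by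
        by_cases hi : i ∈ m.support
        · exact Finset.single_le_sum (f := fun i => m i) (fun _ _ => Nat.zero_le _) hi
        · rw [Finsupp.notMem_support_iff.mp hi]; exact Nat.zero_le _
      have h3 := MvPolynomial.le_totalDegree hm
      exact Nat.lt_succ_of_le (h2.trans (h3.trans hD))
    · intro a _ b _ hab
      exact DFunLike.coe_injective hab
  refine h1.trans (le_of_eq ?_)
  simp [Fintype.card_piFinset]

end

end Pool.Agent.Helper14.LC
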