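import Pool.Agent.Helper14.LC.Nm

/-! # Block C of LT: the substitution sb -/

namespace Pool.Agent.Helper14.LC

open Polynomial

section

variable {R : Type} [CommRing R]

theorem sb_eval (l h y : R) (Q : MvPolynomial (Fin 2) ℤ) :
    (sb l h Q).eval y = MvPolynomial.aeval ![l - h * y, y] Q := by
  have h1 : ((evalRingHom y).comp (sb l h : MvPolynomial (Fin 2) ℤ →ₐ[ℤ] R[X]).toRingHom) =
      (MvPolynomial.aeval ![l - h * y, y] : MvPolynomial (Fin 2) ℤ →ₐ[ℤ] R).toRingHom := by
    apply MvPolynomial.ringHom_ext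
    · intro a; simp
    · intro i
      fin_cases i <;> simp [sb]
  exact congrArg (fun f : MvPolynomial (Fin 2) ℤ →+* R => f Q) h1

theorem sb_map {S : Type} [CommRing S] (φ : R →+* S) (l h : R) (Q : MvPolynomial (Fin 2) ℤ) :
    (sb l h Q).map φ = sb (φ l) (φ h) Q := by
  have h1 : ((mapRingHom φ).comp (sb l h : MvPolynomial (Fin 2) ℤ →ₐ[ℤ] R[X]).toRingHom) =
      (sb (φ l) (φ h) : MvPolynomial (Fin 2) ℤ →ₐ[ℤ] S[X]).toRingHom := by
    apply MvPolynomial.ringHom_ext
    · intro a; simp
    · intro i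
      fin_cases i <;> simp [sb]
  exact congrArg (fun f : MvPolynomial (Fin 2) ℤ →+* S[X] => f Q) h1

theorem sb_natDegree (l h : R) (Q : MvPolynomial (Fin 2) ℤ) :
    (sb l h Q).natDegree ≤ Q.totalDegree := by
  classical
  rw [sb, MvPolynomial.aeval_eq_eval₂Hom, MvPolynomial.coe_eval₂Hom, MvPolynomial.eval₂_eq]
  refine natDegree_sum_le_of_forall_le _ _ fun m hm => ?_
  refine (natDegree_mul_le).trans ?_
  have h0 : ((algebraMap ℤ R[X]) (Q.coeff m)).natDegree = 0 := by
    simp
  rw [h0, zero_add]
  refine (natDegree_prod_le _ _).trans ?_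
  refine le_trans ?_ (MvPolynomial.le_totalDegree hm)
  refine Finset.sum_le_sum fun i _ => ?_
  refine natDegree_pow_le.trans ?_
  have h1 : (![C l - C h * X, X] i : R[X]).natDegree ≤ 1 := by
    fin_cases i
    · simp only [Fin.zero_eta, Matrix.cons_val_zero]
      refine (natDegree_sub_le _ _).trans ?_
      rw [natDegree_C, max_eq_right (Nat.zero_le _)]
      exact (natDegree_C_mul_le _ _).trans natDegree_X_le
    · simpa using natDegree_X_le
  calc m i * _ ≤ m i * 1 := Nat.mul_le_mul_left _ h1
    _ = m i := mul_one _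

theorem pN_sb {N : R → ℝ} (hN : IsNm N) (l h : R) (Q : MvPolynomial (Fin 2) ℤ) (D : ℕ)
    (hD : Q.totalDegree ≤ D) (M : ℝ) (hM : 1 ≤ M) (hl : N l + N h ≤ M) :
    pN N (sb l h Q) ≤ len Q * M ^ D := by
  rw [sb]
  refine (isNm_pN hN).aeval_le Q _ M hM ?_ D hD
  intro i
  fin_cases i
  · simp only [Fin.zero_eta, Matrix.cons_val_zero]
    refine ((isNm_pN hN).sub _ _).trans ?_
    refine le_trans ?_ hl
    rw [pN_C hN]
    refine add_le_add le_rfl ?_
    refine ((isNm_pN hN).mul _ _).trans ?_
    rw [pN_C hN]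
    have := pN_X hN
    have h2 := hN.nn h
    nlinarith
  · simp only [Fin.mk_one, Matrix.cons_val_one, Matrix.cons_val_zero]
    exact (pN_X hN).trans hM

/-- column sums of the Sylvester matrix -/
theorem sylvester_col {N : R → ℝ} (hN : IsNm N) (f g : R[X]) (m n : ℕ) (B : ℝ)
    (hf : pN N f ≤ B) (hg : pN N g ≤ B) (j : Fin (m + n)) :
    ∑ i, N (sylvester f g m n i j) ≤ B := by
  classical
  have key : ∀ (p : R[X]) (a d : ℕ), ∑ i : Fin (m + n),
      N (if (i : ℕ) ∈ Set.Icc a (a + d) then p.coeff (i - a) else 0) ≤ pN N p := by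
    intro p a d
    rw [Fin.sum_univ_eq_sum_range (fun i : ℕ =>
      N (if i ∈ Set.Icc a (a + d) then p.coeff (i - a) else 0)) (m + n)]
    have h1 : ∀ i ∈ Finset.range (m + n),
        N (if i ∈ Set.Icc a (a + d) then p.coeff (i - a) else 0) =
        if i ∈ Set.Icc a (a + d) then N (p.coeff (i - a)) else 0 := by
      intro i _
      split_ifs
      · rfl
      · exact hN.zero
    rw [Finset.sum_congr rfl h1, ← Finset.sum_filter]
    refine le_trans (le_of_eq ?_) (sum_coeff_le_pN hN p
      (((Finset.range (m + n)).filter fun i => i ∈ Set.Icc a (a + d)).image fun i => i - a))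
    rw [Finset.sum_image]
    intro x hx y hy hxy
    simp only [Finset.coe_filter, Finset.mem_range, Set.mem_Icc, Set.mem_ofPred_eq] at hx hy
    simp only at hxy
    omega
  refine Fin.addCases (fun j₁ => ?_) (fun j₁ => ?_) j
  · refine le_trans (le_of_eq (Finset.sum_congr rfl fun i _ => ?_)) ((key g j₁ n).trans hg)
    rw [sylvester, Matrix.of_apply, Fin.addCases_left]
  · refine le_trans (le_of_eq (Finset.sum_congr rfl fun i _ => ?_)) ((key f j₁ m).trans hf)
    rw [sylvester, Matrix.of_apply, Fin.addCases_right]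

/-- the resultant is small if both polynomials are small at y -/
theorem sylvester_vec (f g : R[X]) (m n : ℕ) (hf : f.natDegree ≤ m) (hg : g.natDegree ≤ n) (y : R)
    (j : Fin (m + n)) :
    ((sylvester f g m n).transpose.mulVec fun i => y ^ (i : ℕ)) j =
      Fin.addCases (fun j₁ : Fin m => y ^ (j₁ : ℕ) * g.eval y)
        (fun j₁ : Fin n => y ^ (j₁ : ℕ) * f.eval y) j := by
  classical
  have key : ∀ (p : R[X]) (a d : ℕ), a + d < m + n → p.natDegree ≤ d →
      ∑ i : Fin (m + n), (if (i : ℕ) ∈ Set.Icc a (a + d) then p.coeff (i - a) else 0) *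
        y ^ (i : ℕ) = y ^ a * p.eval y := by
    intro p a d had hp
    rw [Fin.sum_univ_eq_sum_range (fun i : ℕ =>
      (if i ∈ Set.Icc a (a + d) then p.coeff (i - a) else 0) * y ^ i) (m + n)]
    rw [eval_eq_sum_range' (Nat.lt_succ_of_le hp), Finset.mul_sum]
    symm
    refine Finset.sum_of_injOn (fun k => a + k) ?_ ?_ ?_ ?_
    · intro x _ z _ h
      simpa using h
    · intro x hx
      simp only [Finset.coe_range, Set.mem_Iio] at hx ⊢
      omega
    · intro i hi hni
      rw [if_neg, zero_mul]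
      intro hmem
      apply hni
      refine ⟨i - a, ?_, ?_⟩
      · simp only [Finset.coe_range, Set.mem_Iio]
        have := hmem.2
        omega
      · simp only
        have := hmem.1
        omega
    · intro k hk
      rw [Finset.mem_range] at hk
      rw [if_pos ⟨by omega, by omega⟩]
      simp only [add_tsub_cancel_left]
      ring
  rw [Matrix.mulVec, dotProduct]
  simp only [Matrix.transpose_apply]
  refine Fin.addCases (fun j₁ => ?_) (fun j₁ => ?_) j
  · rw [Fin.addCases_left, ← key g j₁ n (by omega) hg]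
    refine Finset.sum_congr rfl fun i _ => ?_
    rw [sylvester, Matrix.of_apply, Fin.addCases_left]
  · rw [Fin.addCases_right, ← key f j₁ m (by omega) hf]
    refine Finset.sum_congr rfl fun i _ => ?_
    rw [sylvester, Matrix.of_apply, Fin.addCases_right]

end

end Pool.Agent.Helper14.LC
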