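import Pool.Agent.Helper14.LC.Stub

/-! # Block C of LT: bounds for the resultant -/

namespace Pool.Agent.Helper14.LC

open Polynomial

theorem Rs_small (Q₁ Q₂ : MvPolynomial (Fin 2) ℤ) (D : ℕ) (h₁ : Q₁.totalDegree ≤ D)
    (h₂ : Q₂.totalDegree ≤ D) (hd : Q₁.totalDegree ≠ 0) (θ : Fin 2 → ℂ) (h : ℤ) (K t b : ℝ)
    (hK : |(h : ℝ)| ≤ K) (ht : ∀ i, ‖θ i‖ ≤ t) (ht1 : 1 ≤ t) (hb : 1 ≤ b) (hb₁ : len Q₁ ≤ b)
    (hb₂ : len Q₂ ≤ b) :
    ‖ev (θ 0 + h * θ 1) (h : ℂ) (Rs Q₁ Q₂)‖ ≤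
      (‖MvPolynomial.aeval θ Q₁‖ + ‖MvPolynomial.aeval θ Q₂‖) * (D * t ^ D) *
        (2 * b * (t * (1 + 2 * K)) ^ D) ^ (2 * D) := by
  classical
  rw [Rs_ev, resultant, ← Matrix.det_transpose]
  set m := Q₁.totalDegree with hm
  set n := Q₂.totalDegree with hn
  set l : ℂ := θ 0 + h * θ 1 with hl
  set f := sb l (h : ℂ) Q₁ with hf
  set g := sb l (h : ℂ) Q₂ with hg
  have hK0 : 0 ≤ K := (abs_nonneg _).trans hK
  have hnh : ‖(h : ℂ)‖ ≤ K := by
    rw [Complex.norm_intCast]; exact hK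
  have hM1 : 1 ≤ t * (1 + 2 * K) := by nlinarith
  have hlM : ‖l‖ + ‖(h : ℂ)‖ ≤ t * (1 + 2 * K) := by
    have : ‖l‖ ≤ t + K * t := by
      rw [hl]
      refine (norm_add_le _ _).trans (add_le_add (ht 0) ?_)
      rw [norm_mul]
      exact mul_le_mul hnh (ht 1) (norm_nonneg _) hK0
    nlinarith
  have hθ : ![l - h * θ 1, θ 1] = θ := by
    ext i
    fin_cases i <;> simp [hl]
  have hpos : 0 < m + n := by omega
  have h3 := isNm_norm.det_small (sylvester f g m n).transpose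
    (fun i => θ 1 ^ (i : ℕ)) ⟨0, hpos⟩ (by simp)
  refine h3.trans ?_
  have hfb : pN (fun z : ℂ => ‖z‖) f ≤ b * (t * (1 + 2 * K)) ^ D :=
    (pN_sb isNm_norm l h Q₁ D h₁ _ hM1 hlM).trans
      (mul_le_mul_of_nonneg_right hb₁ (by positivity))
  have hgb : pN (fun z : ℂ => ‖z‖) g ≤ b * (t * (1 + 2 * K)) ^ D :=
    (pN_sb isNm_norm l h Q₂ D h₂ _ hM1 hlM).trans
      (mul_le_mul_of_nonneg_right hb₂ (by positivity))
  have hbM : 1 ≤ b * (t * (1 + 2 * K)) ^ D := by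
    have := one_le_pow₀ hM1 (n := D)
    nlinarith
  refine mul_le_mul ?_ ?_ (Finset.prod_nonneg fun k _ => by positivity) (by positivity)
  · -- the vector
    have hfe : f.eval (θ 1) = MvPolynomial.aeval θ Q₁ := by
      rw [hf, sb_eval, hθ]
    have hge : g.eval (θ 1) = MvPolynomial.aeval θ Q₂ := by
      rw [hg, sb_eval, hθ]
    have hpw : ∀ k : ℕ, k ≤ D → ‖θ 1‖ ^ k ≤ t ^ D := fun k hk =>
      (pow_le_pow_left₀ (norm_nonneg _) (ht 1) k).trans (pow_le_pow_right₀ ht1 hk)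
    rw [Fin.sum_univ_add]
    have ha : ∑ i : Fin m, ‖((sylvester f g m n).transpose.mulVec
        fun i => θ 1 ^ (i : ℕ)) (Fin.castAdd n i)‖ ≤
        ‖MvPolynomial.aeval θ Q₂‖ * (D * t ^ D) := by
      calc _ ≤ ∑ i : Fin m, t ^ D * ‖MvPolynomial.aeval θ Q₂‖ := by
            refine Finset.sum_le_sum fun i _ => ?_
            rw [sylvester_vec f g m n (sb_natDegree _ _ _) (sb_natDegree _ _ _) (θ 1),
              Fin.addCases_left, hge, norm_mul, norm_pow]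
            exact mul_le_mul_of_nonneg_right (hpw _ (by omega)) (norm_nonneg _)
        _ = (m : ℝ) * (t ^ D * ‖MvPolynomial.aeval θ Q₂‖) := by simp
        _ ≤ (D : ℝ) * (t ^ D * ‖MvPolynomial.aeval θ Q₂‖) := by
            refine mul_le_mul_of_nonneg_right (by exact_mod_cast h₁) (by positivity)
        _ = _ := by ring
    have hc : ∑ i : Fin n, ‖((sylvester f g m n).transpose.mulVec
        fun i => θ 1 ^ (i : ℕ)) (Fin.natAdd m i)‖ ≤
        ‖MvPolynomial.aeval θ Q₁‖ * (D * t ^ D) := by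
      calc _ ≤ ∑ i : Fin n, t ^ D * ‖MvPolynomial.aeval θ Q₁‖ := by
            refine Finset.sum_le_sum fun i _ => ?_
            rw [sylvester_vec f g m n (sb_natDegree _ _ _) (sb_natDegree _ _ _) (θ 1),
              Fin.addCases_right, hfe, norm_mul, norm_pow]
            exact mul_le_mul_of_nonneg_right (hpw _ (by omega)) (norm_nonneg _)
        _ = (n : ℝ) * (t ^ D * ‖MvPolynomial.aeval θ Q₁‖) := by simp
        _ ≤ (D : ℝ) * (t ^ D * ‖MvPolynomial.aeval θ Q₁‖) := by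
            refine mul_le_mul_of_nonneg_right (by exact_mod_cast h₂) (by positivity)
        _ = _ := by ring
    linarith
  · calc ∏ k, (1 + ∑ j, ‖(sylvester f g m n).transpose k j‖)
        ≤ ∏ k : Fin (m + n), (2 * b * (t * (1 + 2 * K)) ^ D) := by
          refine Finset.prod_le_prod (fun k _ => by positivity) fun k _ => ?_
          have h5 := sylvester_col isNm_norm f g m n _ hfb hgb k
          simp only [Matrix.transpose_apply]
          linarith
      _ = (2 * b * (t * (1 + 2 * K)) ^ D) ^ (m + n) := by simp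
      _ ≤ _ := pow_le_pow_right₀ (by linarith) (by omega)

/-- the specialisation of the resultant at an integer -/
theorem Rs_ev1_int (Q₁ Q₂ : MvPolynomial (Fin 2) ℤ) (h : ℤ) :
    ev1 h (Rs Q₁ Q₂) =
      resultant (sb X (C h) Q₁) (sb X (C h) Q₂) Q₁.totalDegree Q₂.totalDegree := by
  rw [← Rs_ev]
  have h1 : (ev1 h : ℤ[X][X] →+* ℤ[X]) = ev X (C h) := by
    apply Polynomial.ringHom_ext
    · intro p
      simp only [ev1, ev, coe_mapRingHom, map_C, coe_eval₂RingHom, eval₂_C]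
      rw [eval₂_eq_sum, eval₂_eq_sum, Polynomial.sum, Polynomial.sum, map_sum]
      simp
    · simp [ev1, ev]
  rw [h1]

theorem Rs_mahler (Q₁ Q₂ : MvPolynomial (Fin 2) ℤ) (D : ℕ) (h₁ : Q₁.totalDegree ≤ D)
    (h₂ : Q₂.totalDegree ≤ D) (h : ℤ) (K b : ℝ) (hK : |(h : ℝ)| ≤ K) (hb : 1 ≤ b)
    (hb₁ : len Q₁ ≤ b) (hb₂ : len Q₂ ≤ b) (n : ℕ) (a : ℂ) (r : Fin n → ℂ)
    (hr : ev1 (h : ℂ) (Rs Q₁ Q₂) = C a * ∏ j, (X - C (r j))) :
    ‖a‖ * ∏ j, max 1 ‖r j‖ ≤ (b * (1 + K) ^ D) ^ (2 * D) := by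
  classical
  have hK0 : 0 ≤ K := (abs_nonneg _).trans hK
  -- Mahler measure
  have h3 : ‖a‖ * ∏ j, max 1 ‖r j‖ = (ev1 (h : ℂ) (Rs Q₁ Q₂)).mahlerMeasure := by
    rw [hr, mahlerMeasure_mul, mahlerMeasure_const]
    congr 1
    have h4 : ∀ s : Finset (Fin n), (∏ j ∈ s, (X - C (r j))).mahlerMeasure =
        ∏ j ∈ s, max 1 ‖r j‖ := by
      intro s
      induction s using Finset.induction_on with
      | empty => simp
      | insert a s ha ih =>
        rw [Finset.prod_insert ha, Finset.prod_insert ha, mahlerMeasure_mul, ih,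
          mahlerMeasure_X_sub_C]
    exact (h4 Finset.univ).symm
  have h5 : ev1 (h : ℂ) (Rs Q₁ Q₂) = (ev1 h (Rs Q₁ Q₂)).map (Int.castRingHom ℂ) := by
    have h6 : (ev1 (h : ℂ) : ℤ[X][X] →+* ℂ[X]) =
        (mapRingHom (Int.castRingHom ℂ)).comp (ev1 h) := by
      apply Polynomial.ringHom_ext
      · intro p
        simp only [ev1, coe_mapRingHom, map_C, coe_eval₂RingHom, RingHom.comp_apply]
        rw [eval₂_eq_sum, eval₂_eq_sum, Polynomial.sum, Polynomial.sum, map_sum]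
        simp
      · simp [ev1]
    rw [h6]; rfl
  rw [h3]
  refine (mahlerMeasure_le_sum_norm_coeff _).trans ?_
  have h7 : ((ev1 (h : ℂ) (Rs Q₁ Q₂)).sum fun _ a => ‖a‖) ≤
      pN (fun z : ℤ => |(z : ℝ)|) (ev1 h (Rs Q₁ Q₂)) := by
    rw [h5, Polynomial.sum]
    refine le_trans (le_of_eq ?_) (sum_coeff_le_pN isNm_int (ev1 h (Rs Q₁ Q₂))
      (map (Int.castRingHom ℂ) ((ev1 h) (Rs Q₁ Q₂))).support)
    refine Finset.sum_congr rfl fun i _ => ?_
    rw [coeff_map, eq_intCast, Complex.norm_intCast]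
  refine h7.trans ?_
  rw [Rs_ev1_int, resultant, ← Matrix.det_transpose]
  refine ((isNm_pN isNm_int).det_le _).trans ?_
  have hM1 : (1 : ℝ) ≤ 1 + K := by linarith
  have hlM : pN (fun z : ℤ => |(z : ℝ)|) X + pN (fun z : ℤ => |(z : ℝ)|) (C h) ≤ 1 + K := by
    rw [pN_C isNm_int]
    exact add_le_add (pN_X isNm_int) hK
  have hfb := (pN_sb (isNm_pN isNm_int) X (C h) Q₁ D h₁ _ hM1 hlM).trans
      (mul_le_mul_of_nonneg_right hb₁ (by positivity))
  have hgb := (pN_sb (isNm_pN isNm_int) X (C h) Q₂ D h₂ _ hM1 hlM).trans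
      (mul_le_mul_of_nonneg_right hb₂ (by positivity))
  have hbM : 1 ≤ b * (1 + K) ^ D := by
    have := one_le_pow₀ hM1 (n := D)
    nlinarith
  calc _ ≤ ∏ k : Fin (Q₁.totalDegree + Q₂.totalDegree), (b * (1 + K) ^ D) := by
        refine Finset.prod_le_prod
          (fun k _ => Finset.sum_nonneg fun j _ => (isNm_pN isNm_int).nn _) fun k _ => ?_
        simp only [Matrix.transpose_apply]
        exact sylvester_col (isNm_pN isNm_int) _ _ _ _ _ hfb hgb k
    _ = (b * (1 + K) ^ D) ^ (Q₁.totalDegree + Q₂.totalDegree) := by simp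
    _ ≤ _ := pow_le_pow_right₀ hbM (by omega)

end Pool.Agent.Helper14.LC
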