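import Mathlib

/-! # Block C of LT: definitions -/

namespace Pool.Agent.Helper14.LC

open Polynomial

/-- sum of the absolute values of the coefficients -/
noncomputable def len {σ : Type} (p : MvPolynomial σ ℤ) : ℝ :=
  ∑ m ∈ p.support, |((p.coeff m : ℤ) : ℝ)|

/-- a submultiplicative function on a commutative ring -/
structure IsNm {R : Type} [CommRing R] (N : R → ℝ) : Prop where
  nn : ∀ x, 0 ≤ N x
  zero : N 0 = 0
  one : N 1 ≤ 1
  neg : ∀ x, N (-x) = N x
  add : ∀ x y, N (x + y) ≤ N x + N y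
  mul : ∀ x y, N (x * y) ≤ N x * N y

/-- the induced function on polynomials -/
noncomputable def pN {R : Type} [CommRing R] (N : R → ℝ) (p : R[X]) : ℝ :=
  ∑ i ∈ p.support, N (p.coeff i)

/-- substitution x_0 = l - h y, x_1 = y -/
noncomputable def sb {R : Type} [CommRing R] (l h : R) : MvPolynomial (Fin 2) ℤ →ₐ[ℤ] R[X] :=
  MvPolynomial.aeval ![C l - C h * X, X]

/-- the leading form of Q at (-h, 1) -/
noncomputable def top (Q : MvPolynomial (Fin 2) ℤ) : ℤ[X] :=
  ∑ m ∈ Q.support with m.degree = Q.totalDegree, C (Q.coeff m) * (-X) ^ (m 0)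

/-- the resultant: outer variable l, inner variable h -/
noncomputable def Rs (Q₁ Q₂ : MvPolynomial (Fin 2) ℤ) : ℤ[X][X] :=
  resultant (sb (X : ℤ[X][X]) (C X) Q₁) (sb (X : ℤ[X][X]) (C X) Q₂) Q₁.totalDegree Q₂.totalDegree

/-- specialisation of l and h -/
noncomputable def ev {R : Type} [CommRing R] (l h : R) : ℤ[X][X] →+* R :=
  eval₂RingHom (eval₂RingHom (Int.castRingHom R) h) l

/-- specialisation of h only -/
noncomputable def ev1 {R : Type} [CommRing R] (h : R) : ℤ[X][X] →+* R[X] :=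
  mapRingHom (eval₂RingHom (Int.castRingHom R) h)

/-- total degree at most n -/
def HD (n : ℕ) (p : ℤ[X][X]) : Prop := ∀ i, p.coeff i ≠ 0 → (p.coeff i).natDegree + i ≤ n

end Pool.Agent.Helper14.LC
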