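import Pool.Agent.Helper14.LC.Nm

/-! # Block C of LT: the final estimate -/

namespace Pool.Agent.Helper14.LC

open Polynomial

/-- difference of two monomials -/
theorem mono_diff (x y : Fin 2 → ℂ) (M δ : ℝ) (hM : 1 ≤ M) (hx : ∀ i, ‖x i‖ ≤ M)
    (hy : ∀ i, ‖y i‖ ≤ M) (hδ : ∀ i, ‖x i - y i‖ ≤ δ) (m : Fin 2 →₀ ℕ) (D : ℕ)
    (hm : m 0 + m 1 ≤ D) :
    ‖x 0 ^ m 0 * x 1 ^ m 1 - y 0 ^ m 0 * y 1 ^ m 1‖ ≤ D * δ * M ^ D := by
  have hδ0 : 0 ≤ δ := (norm_nonneg _).trans (hδ 0)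
  have hpow : ∀ (i : Fin 2) (k : ℕ), ‖x i ^ k - y i ^ k‖ ≤ k * δ * M ^ k := by
    intro i k
    induction k with
    | zero => simp
    | succ k ih =>
      have e : x i ^ (k + 1) - y i ^ (k + 1) = (x i ^ k - y i ^ k) * x i + y i ^ k * (x i - y i) := by
        ring
      rw [e]
      refine (norm_add_le _ _).trans ?_
      rw [norm_mul, norm_mul, norm_pow]
      have h1 : ‖x i ^ k - y i ^ k‖ * ‖x i‖ ≤ (k * δ * M ^ k) * M :=
        mul_le_mul ih (hx i) (norm_nonneg _) (by positivity)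
      have h2 : ‖y i‖ ^ k * ‖x i - y i‖ ≤ M ^ k * δ :=
        mul_le_mul (pow_le_pow_left₀ (norm_nonneg _) (hy i) k) (hδ i) (norm_nonneg _)
          (by positivity)
      have h3 : M ^ k ≤ M ^ (k + 1) := pow_le_pow_right₀ hM (Nat.le_succ k)
      have h4 : M ^ k * δ ≤ M ^ (k + 1) * δ := mul_le_mul_of_nonneg_right h3 hδ0
      push_cast
      calc _ ≤ (k * δ * M ^ k) * M + M ^ (k + 1) * δ := by linarith
        _ = (k + 1) * δ * M ^ (k + 1) := by ring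
  have e : x 0 ^ m 0 * x 1 ^ m 1 - y 0 ^ m 0 * y 1 ^ m 1 =
      (x 0 ^ m 0 - y 0 ^ m 0) * x 1 ^ m 1 + y 0 ^ m 0 * (x 1 ^ m 1 - y 1 ^ m 1) := by ring
  rw [e]
  refine (norm_add_le _ _).trans ?_
  rw [norm_mul, norm_mul, norm_pow, norm_pow]
  have h1 : ‖x 0 ^ m 0 - y 0 ^ m 0‖ * ‖x 1‖ ^ m 1 ≤ (m 0 * δ * M ^ m 0) * M ^ m 1 :=
    mul_le_mul (hpow 0 _) (pow_le_pow_left₀ (norm_nonneg _) (hx 1) _) (by positivity)
      (by positivity)
  have h2 : ‖y 0‖ ^ m 0 * ‖x 1 ^ m 1 - y 1 ^ m 1‖ ≤ M ^ m 0 * (m 1 * δ * M ^ m 1) :=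
    mul_le_mul (pow_le_pow_left₀ (norm_nonneg _) (hy 0) _) (hpow 1 _) (norm_nonneg _)
      (by positivity)
  have h3 : M ^ (m 0 + m 1) ≤ M ^ D := pow_le_pow_right₀ hM hm
  have h4 : ((m 0 : ℝ) + m 1) ≤ D := by exact_mod_cast hm
  calc _ ≤ (m 0 * δ * M ^ m 0) * M ^ m 1 + M ^ m 0 * (m 1 * δ * M ^ m 1) := add_le_add h1 h2
    _ = ((m 0 : ℝ) + m 1) * δ * M ^ (m 0 + m 1) := by rw [pow_add]; ring
    _ ≤ D * δ * M ^ D := by
      refine mul_le_mul (mul_le_mul_of_nonneg_right h4 hδ0) h3 (by positivity) (by positivity)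

theorem aeval_two (x : Fin 2 → ℂ) (Q : MvPolynomial (Fin 2) ℤ) :
    MvPolynomial.aeval x Q = ∑ m ∈ Q.support, ((Q.coeff m : ℤ) : ℂ) * (x 0 ^ m 0 * x 1 ^ m 1) := by
  rw [MvPolynomial.aeval_eq_eval₂Hom, MvPolynomial.coe_eval₂Hom, MvPolynomial.eval₂_eq']
  refine Finset.sum_congr rfl fun m _ => ?_
  rw [Fin.prod_univ_two]
  simp

theorem deg_two (Q : MvPolynomial (Fin 2) ℤ) (m : Fin 2 →₀ ℕ) (hm : m ∈ Q.support) :
    m 0 + m 1 ≤ Q.totalDegree := by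
  have h := MvPolynomial.le_totalDegree hm
  rw [Finsupp.sum_fintype _ _ (fun _ => rfl), Fin.sum_univ_two] at h
  exact h

theorem aeval_diff (x y : Fin 2 → ℂ) (M δ : ℝ) (hM : 1 ≤ M) (hx : ∀ i, ‖x i‖ ≤ M)
    (hy : ∀ i, ‖y i‖ ≤ M) (hδ : ∀ i, ‖x i - y i‖ ≤ δ) (Q : MvPolynomial (Fin 2) ℤ) (D : ℕ)
    (hQ : Q.totalDegree ≤ D) :
    ‖MvPolynomial.aeval x Q - MvPolynomial.aeval y Q‖ ≤ len Q * (D * δ * M ^ D) := by
  rw [aeval_two, aeval_two, ← Finset.sum_sub_distrib]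
  refine (norm_sum_le _ _).trans ?_
  rw [len, Finset.sum_mul]
  refine Finset.sum_le_sum fun m hm => ?_
  rw [← mul_sub, norm_mul, Complex.norm_intCast]
  exact mul_le_mul_of_nonneg_left
    (mono_diff x y M δ hM hx hy hδ m D ((deg_two Q m hm).trans hQ)) (abs_nonneg _)

theorem est (n D : ℕ) (K b B t ε η : ℝ) (hK : 1 ≤ K) (hb : 1 ≤ b) (ht1 : 1 ≤ t) (hε : ε ≤ 1)
    (θ : Fin 2 → ℂ) (ht : ∀ i, ‖θ i‖ ≤ t) (r : Fin n → Fin 2 → ℂ) (a₁ a₂ h₁ h₂ : ℤ)
    (hh : h₁ ≠ h₂) (hK₁ : |(h₁ : ℝ)| ≤ K) (hK₂ : |(h₂ : ℝ)| ≤ K) (ha₁ : a₁ ≠ 0) (ha₂ : a₂ ≠ 0)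
    (Q : MvPolynomial (Fin 2) ℤ) (hQ : Q.totalDegree ≤ D) (hQb : len Q ≤ b)
    (hQε : ‖MvPolynomial.aeval θ Q‖ ≤ ε)
    (hg : ∀ j i, ‖r j i - θ i‖ ≤ 4 * K * ‖(θ 0 + h₁ * θ 1) - (r j 0 + r j 1 * h₁)‖)
    (hη : ‖(a₁ : ℂ)‖ * ∏ j, ‖(θ 0 + h₁ * θ 1) - (r j 0 + r j 1 * h₁)‖ ≤ η)
    (hB₁ : ‖(a₁ : ℂ)‖ * ∏ j, max 1 ‖r j 0 + r j 1 * h₁‖ ≤ B)
    (hB₂ : ‖(a₂ : ℂ)‖ * ∏ j, max 1 ‖r j 0 + r j 1 * h₂‖ ≤ B) :
    ‖((a₁ * a₂ : ℤ) : ℂ) ^ D * ∏ j, (((h₁ - h₂ : ℤ) : ℂ) ^ D * MvPolynomial.aeval (r j) Q)‖ ≤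
      (2 * b * (D + 1) * (4 * K ^ 2 * t) ^ D) ^ n * B ^ (2 * D) * max ε ((4 * K) ^ n * η) := by
  classical
  have hε0 : 0 ≤ ε := (norm_nonneg _).trans hQε
  set s : Fin n → ℂ := fun j => r j 0 + r j 1 * h₁ with hs
  set u : Fin n → ℂ := fun j => r j 0 + r j 1 * h₂ with hu
  set d : Fin n → ℝ := fun j => 4 * K * ‖(θ 0 + h₁ * θ 1) - s j‖ with hd
  set M1 : Fin n → ℝ := fun j => max 1 ‖s j‖ with hM1
  set M2 : Fin n → ℝ := fun j => max 1 ‖u j‖ with hM2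
  have hM1' : ∀ j, 1 ≤ M1 j := fun j => le_max_left _ _
  have hM2' : ∀ j, 1 ≤ M2 j := fun j => le_max_left _ _
  have hs' : ∀ j, ‖s j‖ ≤ M1 j := fun j => le_max_right _ _
  have hu' : ∀ j, ‖u j‖ ≤ M2 j := fun j => le_max_right _ _
  have hdiff1 : (1 : ℝ) ≤ ‖((h₁ - h₂ : ℤ) : ℂ)‖ := by
    rw [Complex.norm_intCast]
    have h5 : (1 : ℤ) ≤ |h₁ - h₂| := Int.one_le_abs (sub_ne_zero.mpr hh)
    exact_mod_cast h5
  have hdiff2 : ‖((h₁ - h₂ : ℤ) : ℂ)‖ ≤ 2 * K := by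
    rw [Complex.norm_intCast]
    push_cast
    exact (abs_sub _ _).trans (by linarith)
  have hh1 : ‖(h₁ : ℂ)‖ ≤ K := by rw [Complex.norm_intCast]; exact hK₁
  have hh2 : ‖(h₂ : ℂ)‖ ≤ K := by rw [Complex.norm_intCast]; exact hK₂
  -- size of r j
  have hrj : ∀ j i, ‖r j i‖ ≤ 2 * K * (M1 j * M2 j) := by
    intro j i
    have p1 : ‖s j‖ ≤ M1 j * M2 j := by
      have := hs' j; have := hM1' j; have := hM2' j; nlinarith
    have p2 : ‖u j‖ ≤ M1 j * M2 j := by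
      have := hu' j; have := hM1' j; have := hM2' j; nlinarith
    have hMM : 0 ≤ M1 j * M2 j := (norm_nonneg _).trans p1
    fin_cases i
    · simp only [Fin.zero_eta]
      have e : ((h₁ - h₂ : ℤ) : ℂ) * r j 0 = h₁ * u j - h₂ * s j := by
        rw [hs, hu]; push_cast; ring
      calc ‖r j 0‖ ≤ ‖((h₁ - h₂ : ℤ) : ℂ)‖ * ‖r j 0‖ :=
            le_mul_of_one_le_left (norm_nonneg _) hdiff1
        _ = ‖(h₁ : ℂ) * u j - h₂ * s j‖ := by rw [← norm_mul, e]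
        _ ≤ ‖(h₁ : ℂ)‖ * ‖u j‖ + ‖(h₂ : ℂ)‖ * ‖s j‖ := by
            refine (norm_sub_le _ _).trans ?_
            rw [norm_mul, norm_mul]
        _ ≤ K * (M1 j * M2 j) + K * (M1 j * M2 j) :=
            add_le_add (mul_le_mul hh1 p2 (norm_nonneg _) (by linarith))
              (mul_le_mul hh2 p1 (norm_nonneg _) (by linarith))
        _ = _ := by ring
    · simp only [Fin.mk_one]
      have e : ((h₁ - h₂ : ℤ) : ℂ) * r j 1 = s j - u j := by
        rw [hs, hu]; push_cast; ring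
      calc ‖r j 1‖ ≤ ‖((h₁ - h₂ : ℤ) : ℂ)‖ * ‖r j 1‖ :=
            le_mul_of_one_le_left (norm_nonneg _) hdiff1
        _ = ‖s j - u j‖ := by rw [← norm_mul, e]
        _ ≤ ‖s j‖ + ‖u j‖ := norm_sub_le _ _
        _ ≤ M1 j * M2 j + M1 j * M2 j := add_le_add p1 p2
        _ = 2 * 1 * (M1 j * M2 j) := by ring
        _ ≤ 2 * K * (M1 j * M2 j) := by
            refine mul_le_mul_of_nonneg_right ?_ hMM
            linarith
  -- value of Q at r j
  have hQr : ∀ j, ‖MvPolynomial.aeval (r j) Q‖ ≤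
      b * (D + 1) * (t * (2 * K * (M1 j * M2 j))) ^ D * min 1 (max ε (d j)) := by
    intro j
    set M := t * (2 * K * (M1 j * M2 j)) with hM
    have q1 : 1 ≤ M1 j * M2 j := by
      have := hM1' j; have := hM2' j; nlinarith
    have q2 : 1 ≤ 2 * K * (M1 j * M2 j) := by nlinarith
    have q3 : 1 ≤ M := by rw [hM]; nlinarith
    have q4 : 2 * K * (M1 j * M2 j) ≤ M := by rw [hM]; nlinarith
    have q5 : t ≤ M := by rw [hM]; nlinarith
    have q6 : 1 ≤ M ^ D := one_le_pow₀ q3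
    have hl0 := len_nonneg Q
    have b1 : ‖MvPolynomial.aeval (r j) Q‖ ≤ b * (D + 1) * M ^ D := by
      have := isNm_norm.aeval_le Q (r j) M q3 (fun i => (hrj j i).trans q4) D hQ
      have h8 : len Q * M ^ D ≤ b * M ^ D := mul_le_mul_of_nonneg_right hQb (by linarith)
      have h9 : (0 : ℝ) ≤ D := Nat.cast_nonneg D
      have h10 : b * M ^ D * 1 ≤ b * M ^ D * (D + 1) :=
        mul_le_mul_of_nonneg_left (by linarith) (by positivity)
      calc _ ≤ len Q * M ^ D := this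
        _ ≤ _ := by linarith
    have hd0 : 0 ≤ d j := by rw [hd]; positivity
    have b2 : ‖MvPolynomial.aeval (r j) Q‖ ≤ b * (D + 1) * M ^ D * max ε (d j) := by
      have h11 := aeval_diff (r j) θ M (d j) q3 (fun i => (hrj j i).trans q4)
        (fun i => (ht i).trans q5) (fun i => hg j i) Q D hQ
      have h12 : ‖MvPolynomial.aeval (r j) Q‖ ≤ ε + len Q * (D * d j * M ^ D) := by
        calc ‖MvPolynomial.aeval (r j) Q‖
            = ‖MvPolynomial.aeval θ Q +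
                (MvPolynomial.aeval (r j) Q - MvPolynomial.aeval θ Q)‖ := by congr 1; ring
          _ ≤ _ := (norm_add_le _ _).trans (add_le_add hQε h11)
      set w := max ε (d j) with hw
      have h13 : ε ≤ w := le_max_left _ _
      have h14 : d j ≤ w := le_max_right _ _
      have hw0 : 0 ≤ w := hε0.trans h13
      have h15 : len Q * (D * d j * M ^ D) ≤ b * (D * w * M ^ D) := by
        refine mul_le_mul hQb ?_ (by positivity) (by linarith)
        refine mul_le_mul_of_nonneg_right ?_ (by linarith)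
        exact mul_le_mul_of_nonneg_left h14 (Nat.cast_nonneg D)
      have h16 : ε ≤ b * (w * M ^ D) := by
        calc ε ≤ w := h13
          _ ≤ w * M ^ D := le_mul_of_one_le_right hw0 q6
          _ ≤ b * (w * M ^ D) := le_mul_of_one_le_left (by positivity) hb
      calc _ ≤ b * (w * M ^ D) + b * (D * w * M ^ D) := by linarith
        _ = _ := by ring
    rcases le_total 1 (max ε (d j)) with h17 | h17
    · rw [min_eq_left h17, mul_one]; exact b1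
    · rw [min_eq_right h17]; exact b2
  -- the product of the min
  have hprod : ∏ j, min 1 (max ε (d j)) ≤ max ε ((4 * K) ^ n * η) := by
    have hmn : ∀ j, 0 ≤ min 1 (max ε (d j)) := fun j =>
      le_min zero_le_one (hε0.trans (le_max_left _ _))
    by_cases hex : ∃ j, d j ≤ ε
    · obtain ⟨j, hj⟩ := hex
      refine le_trans ?_ (le_max_left _ _)
      rw [← Finset.mul_prod_erase _ _ (Finset.mem_univ j)]
      calc _ ≤ ε * 1 := by
            refine mul_le_mul ?_ ?_ (Finset.prod_nonneg fun i _ => hmn i) hε0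
            · rw [max_eq_left hj]; exact min_le_right _ _
            · exact Finset.prod_le_one (fun i _ => hmn i) (fun i _ => min_le_left _ _)
        _ = ε := mul_one _
    · push Not at hex
      refine le_trans ?_ (le_max_right _ _)
      calc ∏ j, min 1 (max ε (d j)) ≤ ∏ j, d j := by
            refine Finset.prod_le_prod (fun i _ => hmn i) fun j _ => ?_
            rw [max_eq_right (hex j).le]; exact min_le_right _ _
        _ = (4 * K) ^ n * ∏ j, ‖(θ 0 + h₁ * θ 1) - s j‖ := by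
            rw [hd, Finset.prod_mul_distrib]; simp
        _ ≤ (4 * K) ^ n * η := by
            refine mul_le_mul_of_nonneg_left (le_trans ?_ hη) (by positivity)
            refine le_mul_of_one_le_left (Finset.prod_nonneg fun i _ => norm_nonneg _) ?_
            rw [Complex.norm_intCast]
            have h5 : (1 : ℤ) ≤ |a₁| := Int.one_le_abs ha₁
            exact_mod_cast h5
  -- assembly
  rw [norm_mul, norm_pow, norm_prod]
  have hstep : ∏ j, ‖(((h₁ - h₂ : ℤ) : ℂ) ^ D * MvPolynomial.aeval (r j) Q)‖ ≤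
      (b * (D + 1) * (4 * K ^ 2 * t) ^ D) ^ n * (∏ j, M1 j) ^ D * (∏ j, M2 j) ^ D *
        ∏ j, min 1 (max ε (d j)) := by
    have e1 : (b * (D + 1) * (4 * K ^ 2 * t) ^ D) ^ n * (∏ j, M1 j) ^ D * (∏ j, M2 j) ^ D *
        ∏ j, min 1 (max ε (d j)) = ∏ j, ((b * (D + 1) * (4 * K ^ 2 * t) ^ D) * M1 j ^ D *
          M2 j ^ D * min 1 (max ε (d j))) := by
      rw [Finset.prod_mul_distrib, Finset.prod_mul_distrib, Finset.prod_mul_distrib,
        Finset.prod_pow, Finset.prod_pow]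
      simp
    rw [e1]
    refine Finset.prod_le_prod (fun j _ => norm_nonneg _) fun j _ => ?_
    rw [norm_mul, norm_pow]
    have hmn : 0 ≤ min 1 (max ε (d j)) :=
      le_min zero_le_one (hε0.trans (le_max_left _ _))
    have m1 := hM1' j
    have m2 := hM2' j
    calc ‖((h₁ - h₂ : ℤ) : ℂ)‖ ^ D * ‖MvPolynomial.aeval (r j) Q‖
        ≤ (2 * K) ^ D * (b * (D + 1) * (t * (2 * K * (M1 j * M2 j))) ^ D *
            min 1 (max ε (d j))) :=
          mul_le_mul (pow_le_pow_left₀ (norm_nonneg _) hdiff2 D) (hQr j) (norm_nonneg _)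
            (by positivity)
      _ = (b * (D + 1) * (4 * K ^ 2 * t) ^ D) * M1 j ^ D * M2 j ^ D * min 1 (max ε (d j)) := by
          have : (4 * K ^ 2 * t) ^ D * M1 j ^ D * M2 j ^ D =
              (2 * K) ^ D * (t * (2 * K * (M1 j * M2 j))) ^ D := by
            rw [← mul_pow, ← mul_pow, ← mul_pow]; congr 1; ring
          calc _ = b * (D + 1) * ((2 * K) ^ D * (t * (2 * K * (M1 j * M2 j))) ^ D) *
                min 1 (max ε (d j)) := by ring
            _ = _ := by rw [← this]; ring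
  have hP1 : 0 ≤ ∏ j, M1 j := Finset.prod_nonneg fun j _ => zero_le_one.trans (hM1' j)
  have hP2 : 0 ≤ ∏ j, M2 j := Finset.prod_nonneg fun j _ => zero_le_one.trans (hM2' j)
  have hm0 : 0 ≤ ∏ j, min 1 (max ε (d j)) := Finset.prod_nonneg fun j _ =>
    le_min zero_le_one (hε0.trans (le_max_left _ _))
  calc ‖((a₁ * a₂ : ℤ) : ℂ)‖ ^ D * ∏ j, ‖(((h₁ - h₂ : ℤ) : ℂ) ^ D * MvPolynomial.aeval (r j) Q)‖
      ≤ ‖((a₁ * a₂ : ℤ) : ℂ)‖ ^ D * ((b * (D + 1) * (4 * K ^ 2 * t) ^ D) ^ n *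
          (∏ j, M1 j) ^ D * (∏ j, M2 j) ^ D * ∏ j, min 1 (max ε (d j))) :=
        mul_le_mul_of_nonneg_left hstep (by positivity)
    _ = (b * (D + 1) * (4 * K ^ 2 * t) ^ D) ^ n * ((‖(a₁ : ℂ)‖ * ∏ j, M1 j) ^ D *
          (‖(a₂ : ℂ)‖ * ∏ j, M2 j) ^ D) * ∏ j, min 1 (max ε (d j)) := by
        push_cast
        rw [norm_mul, mul_pow, mul_pow, mul_pow]; ring
    _ ≤ (2 * b * (D + 1) * (4 * K ^ 2 * t) ^ D) ^ n * B ^ (2 * D) *
          max ε ((4 * K) ^ n * η) := by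
        refine mul_le_mul (mul_le_mul ?_ ?_ (by positivity) (by positivity)) hprod hm0 ?_
        · refine pow_le_pow_left₀ (by positivity) ?_ n
          refine mul_le_mul_of_nonneg_right ?_ (by positivity)
          refine mul_le_mul_of_nonneg_right ?_ (by positivity)
          linarith
        · rw [two_mul, pow_add]
          exact mul_le_mul (pow_le_pow_left₀ (by positivity) hB₁ D)
            (pow_le_pow_left₀ (by positivity) hB₂ D) (by positivity)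
            (pow_nonneg ((by positivity : (0 : ℝ) ≤ ‖(a₁ : ℂ)‖ * ∏ j, M1 j).trans hB₁) D)
        · have hB0 : 0 ≤ B := (by positivity : (0 : ℝ) ≤ ‖(a₁ : ℂ)‖ * ∏ j, M1 j).trans hB₁
          positivity

end Pool.Agent.Helper14.LC
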