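import Pool.Agent.Helper14.LC.Nm

/-! # Block C of LT: avoidance and the choice of h -/

namespace Pool.Agent.Helper14.LC

open Polynomial

/-- avoidance -/
theorem avoid {W : Type} (E : Finset W) (N : ℕ) (f : Fin N → W → ℂ)
    (h : ∀ z ∈ E, ∃ j, f j z ≠ 0) :
    ∃ c : Fin N → ℕ, (∀ j, c j ≤ E.card) ∧ ∀ z ∈ E, ∑ j, (c j : ℂ) * f j z ≠ 0 := by
  classical
  induction N generalizing E with
  | zero =>
    refine ⟨fun _ => 0, fun j => Nat.zero_le _, fun z hz => ?_⟩
    obtain ⟨j, _⟩ := h z hz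
    exact j.elim0
  | succ N ih =>
    obtain ⟨c, hc1, hc2⟩ := ih (E.filter fun z => ∃ j : Fin N, f j.castSucc z ≠ 0)
      (fun j => f j.castSucc) (fun z hz => (Finset.mem_filter.mp hz).2)
    -- bad values
    have hbad : ∃ u : ℕ, u ≤ E.card ∧ ∀ z ∈ E,
        ∑ j : Fin N, (c j : ℂ) * f j.castSucc z + (u : ℂ) * f (Fin.last N) z ≠ 0 := by
      by_contra hcon
      push Not at hcon
      have hch : ∀ u ∈ Finset.range (E.card + 1), ∃ z ∈ E,
          ∑ j : Fin N, (c j : ℂ) * f j.castSucc z + (u : ℂ) * f (Fin.last N) z = 0 := by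
        intro u hu
        exact hcon u (Nat.lt_succ_iff.mp (Finset.mem_range.mp hu))
      have : Nonempty W := ⟨(hcon 0 (Nat.zero_le _)).choose⟩
      choose! g hg1 hg2 using hch
      obtain ⟨u, hu, v, hv, huv, hgg⟩ := Finset.exists_ne_map_eq_of_card_lt_of_maps_to
        (s := Finset.range (E.card + 1)) (t := E) (by simp) (f := g) (fun u hu => hg1 u hu)
      have e1 := hg2 u hu
      have e2 := hg2 v hv
      rw [← hgg] at e2
      have e3 : ((u : ℂ) - v) * f (Fin.last N) (g u) = 0 := by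
        linear_combination e1 - e2
      have e4 : (u : ℂ) - v ≠ 0 := by
        rw [sub_ne_zero]; exact_mod_cast huv
      have e5 : f (Fin.last N) (g u) = 0 := by
        rcases mul_eq_zero.mp e3 with h | h
        · exact absurd h e4
        · exact h
      rw [e5, mul_zero, add_zero] at e1
      obtain ⟨j, hj⟩ := h (g u) (hg1 u hu)
      have hj' : ∃ j : Fin N, f j.castSucc (g u) ≠ 0 := by
        refine Fin.lastCases (motive := fun j => f j (g u) ≠ 0 → _) ?_ ?_ j hj
        · intro hl; exact absurd e5 hl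
        · intro i hi; exact ⟨i, hi⟩
      exact hc2 (g u) (Finset.mem_filter.mpr ⟨hg1 u hu, hj'⟩) e1
    obtain ⟨u, hu1, hu2⟩ := hbad
    refine ⟨Fin.lastCases u c, ?_, ?_⟩
    · intro j
      refine Fin.lastCases ?_ (fun i => ?_) j
      · simpa using hu1
      · simpa using (hc1 i).trans (Finset.card_filter_le _ _)
    · intro z hz
      rw [Fin.sum_univ_castSucc]
      simpa using hu2 z hz

/-- two good values of h -/
theorem good_h (n : ℕ) (r : Fin n → Fin 2 → ℂ) (θ : Fin 2 → ℂ) (c : ℤ[X]) (hc : c ≠ 0)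
    (K : ℕ) (hK : n + c.natDegree + 2 ≤ K) :
    ∃ h₁ h₂ : ℤ, |(h₁ : ℝ)| ≤ K ∧ |(h₂ : ℝ)| ≤ K ∧ h₁ ≠ h₂ ∧ c.eval h₁ ≠ 0 ∧ c.eval h₂ ≠ 0 ∧
      ∀ j i, ‖r j i - θ i‖ ≤ 4 * K * ‖(θ 0 + h₁ * θ 1) - (r j 0 + r j 1 * h₁)‖ := by
  classical
  set good : Fin n → ℤ → Prop := fun j h =>
    ∀ i, ‖r j i - θ i‖ ≤ 4 * K * ‖(θ 0 + h * θ 1) - (r j 0 + r j 1 * h)‖ with hgood
  have hKpos : (0 : ℝ) < K := by
    have : 0 < K := by omega
    exact_mod_cast this
  -- at most one bad h for every j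
  have hone : ∀ j, ∀ h ∈ Finset.Icc (1 : ℤ) K, ∀ h' ∈ Finset.Icc (1 : ℤ) K,
      ¬ good j h → ¬ good j h' → h = h' := by
    intro j h hh h' hh' hb hb'
    by_contra hne
    rw [Finset.mem_Icc] at hh hh'
    set u : ℂ := θ 0 - r j 0 with hu
    set v : ℂ := θ 1 - r j 1 with hv
    have e1 : ∀ h : ℤ, (θ 0 + h * θ 1) - (r j 0 + r j 1 * h) = u + h * v := by
      intro h; rw [hu, hv]; ring
    set δ := max ‖u‖ ‖v‖ with hδ
    have hbd : ∀ h : ℤ, ¬ good j h → 4 * K * ‖u + h * v‖ < δ := by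
      intro h hb
      rw [hgood] at hb
      simp only [not_forall, not_le] at hb
      obtain ⟨i, hi⟩ := hb
      rw [e1] at hi
      refine hi.trans_le ?_
      fin_cases i
      · simp only [Fin.zero_eta]
        rw [norm_sub_rev, ← hu]; exact le_max_left _ _
      · simp only [Fin.mk_one]
        rw [norm_sub_rev, ← hv]; exact le_max_right _ _
    have b1 := hbd h hb
    have b2 := hbd h' hb'
    have hvd : ‖v‖ ≤ ‖u + h * v‖ + ‖u + h' * v‖ := by
      have e2 : ((h : ℂ) - h') * v = (u + h * v) - (u + h' * v) := by ring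
      have e3 : (1 : ℝ) ≤ ‖((h : ℂ) - h')‖ := by
        have : ((h : ℂ) - h') = ((h - h' : ℤ) : ℂ) := by push_cast; ring
        rw [this, Complex.norm_intCast]
        have h5 : (1 : ℤ) ≤ |h - h'| := Int.one_le_abs (sub_ne_zero.mpr hne)
        exact_mod_cast h5
      calc ‖v‖ ≤ ‖((h : ℂ) - h')‖ * ‖v‖ := le_mul_of_one_le_left (norm_nonneg _) e3
        _ = ‖((h : ℂ) - h') * v‖ := (norm_mul _ _).symm
        _ = ‖(u + h * v) - (u + h' * v)‖ := by rw [e2]
        _ ≤ _ := norm_sub_le _ _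
    have hud : ‖u‖ ≤ ‖u + h * v‖ + K * ‖v‖ := by
      have e4 : ‖(h : ℂ) * v‖ ≤ K * ‖v‖ := by
        rw [norm_mul]
        refine mul_le_mul_of_nonneg_right ?_ (norm_nonneg _)
        rw [Complex.norm_intCast]
        rw [abs_of_nonneg (by exact_mod_cast (by omega : (0 : ℤ) ≤ h))]
        exact_mod_cast hh.2
      calc ‖u‖ = ‖(u + h * v) - h * v‖ := by congr 1; ring
        _ ≤ ‖u + h * v‖ + ‖(h : ℂ) * v‖ := norm_sub_le _ _
        _ ≤ _ := by linarith
    have hK1 : (1 : ℝ) ≤ K := by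
      have : 1 ≤ K := by omega
      exact_mod_cast this
    have n1 := norm_nonneg (u + h * v)
    have n2 := norm_nonneg (u + h' * v)
    have hδ0 : 0 ≤ δ := le_max_of_le_left (norm_nonneg _)
    have s1 : ‖u + h * v‖ ≤ K * ‖u + h * v‖ := le_mul_of_one_le_left n1 hK1
    have s2 : ‖u + h' * v‖ ≤ K * ‖u + h' * v‖ := le_mul_of_one_le_left n2 hK1
    have hKv : K * ‖v‖ ≤ K * ‖u + h * v‖ + K * ‖u + h' * v‖ := by
      have := mul_le_mul_of_nonneg_left hvd hKpos.le
      linarith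
    have hmax : δ ≤ ‖u‖ ∨ δ ≤ ‖v‖ := by
      rcases le_total ‖u‖ ‖v‖ with h6 | h6
      · right; rw [hδ, max_eq_right h6]
      · left; rw [hδ, max_eq_left h6]
    rcases hmax with h6 | h6
    · linarith
    · linarith
  -- the set of good values
  set T : Finset ℤ := (Finset.Icc (1 : ℤ) K).filter fun h => ¬ ∃ j, ¬ good j h with hT
  set B : Finset ℤ := (Finset.Icc (1 : ℤ) K).filter fun h => ∃ j, ¬ good j h with hB
  have hBc : B.card ≤ n := by
    have hch : ∀ h ∈ B, ∃ j, ¬ good j h := fun h hh => (Finset.mem_filter.mp hh).2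
    rcases B.eq_empty_or_nonempty with hBe | ⟨b, hb⟩
    · rw [hBe]; simp
    have : Nonempty (Fin n) := ⟨(hch b hb).choose⟩
    choose! g hg using hch
    have : B.card ≤ (Finset.univ : Finset (Fin n)).card := by
      refine Finset.card_le_card_of_injOn g (fun _ _ => Finset.mem_coe.mpr (Finset.mem_univ _)) ?_
      intro h hh h' hh' hgg
      have m1 := (Finset.mem_filter.mp hh).1
      have m2 := (Finset.mem_filter.mp hh').1
      refine hone (g h) h m1 h' m2 (hg h hh) ?_
      rw [hgg]; exact hg h' hh'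
    simpa using this
  have hTB : T.card + B.card = K := by
    have h7 := Finset.card_filter_add_card_filter_not (s := Finset.Icc (1 : ℤ) K)
      (fun h => ∃ j, ¬ good j h)
    rw [Int.card_Icc] at h7
    have h8 : ((K : ℤ) + 1 - 1).toNat = K := by simp
    rw [h8] at h7
    rw [hT, hB]
    omega
  set T' : Finset ℤ := T.filter fun h => ¬ c.IsRoot h with hT'
  have hroots : (T.filter fun h => c.IsRoot h).card ≤ c.natDegree := by
    refine le_trans (Finset.card_le_card ?_) ((Multiset.toFinset_card_le _).trans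
      (card_roots' c))
    intro h hh
    rw [Multiset.mem_toFinset, mem_roots hc]
    exact (Finset.mem_filter.mp hh).2
  have hTT := Finset.card_filter_add_card_filter_not (s := T) (fun h => c.IsRoot h)
  have h2 : 1 < T'.card := by
    rw [hT']
    omega
  obtain ⟨h₁, m1, h₂, m2, hne⟩ := Finset.one_lt_card.mp h2
  have q1 := Finset.mem_filter.mp m1
  have q2 := Finset.mem_filter.mp m2
  have p1 := Finset.mem_filter.mp q1.1
  have p2 := Finset.mem_filter.mp q2.1
  have r1 := Finset.mem_Icc.mp p1.1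
  have r2 := Finset.mem_Icc.mp p2.1
  refine ⟨h₁, h₂, ?_, ?_, hne, q1.2, q2.2, ?_⟩
  · rw [abs_of_nonneg (by exact_mod_cast (by omega : (0 : ℤ) ≤ h₁))]
    exact_mod_cast r1.2
  · rw [abs_of_nonneg (by exact_mod_cast (by omega : (0 : ℤ) ≤ h₂))]
    exact_mod_cast r2.2
  · intro j
    have := p1.2
    push Not at this
    exact this j

end Pool.Agent.Helper14.LC
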