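import Mathlib

/-! # Block C of LT: the numerical inequality -/

namespace Pool.Agent.Helper14.LC

open Real

theorem pw (x E m : ℝ) (n : ℕ) (hx : 0 ≤ x) (hE : 0 ≤ E) (hxE : x ≤ exp E) (hn : (n : ℝ) ≤ m) :
    x ^ n ≤ exp (m * E) := by
  calc x ^ n ≤ exp E ^ n := pow_le_pow_left₀ hx hxE n
    _ = exp (n * E) := by rw [← exp_nat_mul]
    _ ≤ exp (m * E) := exp_le_exp.mpr (mul_le_mul_of_nonneg_right hn hE)

theorem num (A t κ : ℝ) (hA : 0 < A) (ht : 1 ≤ t) (hκ : 3 < κ) :
    ∃ S0 : ℝ, 1 ≤ S0 ∧ ∀ S : ℝ, S0 ≤ S → 2 * (A * S) ^ 2 ≤ S ^ 3 ∧ A * S ≤ S ^ 3 ∧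
      exp (A * S - S ^ κ) < 1 ∧
      ∀ (D n : ℕ) (K : ℝ), (D : ℝ) ≤ A * S → (n : ℝ) ≤ 2 * (D : ℝ) ^ 2 →
        K = 2 * (D : ℝ) ^ 2 + 2 →
        (2 * exp (A * S) * (D + 1) * (4 * K ^ 2 * t) ^ D) ^ n *
          ((exp (A * S) * (1 + K) ^ D) ^ (2 * D)) ^ (2 * D) *
          max (exp (A * S - S ^ κ)) ((4 * K) ^ n *
            ((2 * exp (A * S - S ^ κ)) * (D * t ^ D) *
              (2 * exp (A * S) * (t * (1 + 2 * K)) ^ D) ^ (2 * D))) < 1 := by
  set a := A + 1 with ha
  have ha1 : 1 ≤ a := by linarith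
  have hc : (0 : ℝ) < 1 / (98 * a ^ 3) := by positivity
  have hlo := (isLittleO_log_rpow_atTop (by linarith : 0 < κ - 3)).def hc
  obtain ⟨S1, hS1⟩ := Filter.eventually_atTop.mp hlo
  refine ⟨max S1 (max (2 * A ^ 2 + A + 100) t), ?_, ?_⟩
  · exact le_trans (le_trans ht (le_max_right _ _)) (le_max_right _ _)
  intro S hS
  have hSS1 : S1 ≤ S := (le_max_left _ _).trans hS
  have hSA : 2 * A ^ 2 + A + 100 ≤ S := ((le_max_left _ _).trans (le_max_right _ _)).trans hS
  have hSt : t ≤ S := ((le_max_right _ _).trans (le_max_right _ _)).trans hS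
  have hS100 : 100 ≤ S := by nlinarith [sq_nonneg A]
  have hS0 : 0 < S := by linarith
  have hSA' : A ≤ S := by nlinarith [sq_nonneg A]
  have hlog := hS1 S hSS1
  set l := log S with hl
  have hSl : S = exp l := (exp_log hS0).symm
  have hl1 : 1 ≤ l := by
    rw [hl, Real.le_log_iff_exp_le hS0]
    have := Real.exp_one_lt_d9
    linarith
  have hSk : ∀ k : ℕ, S ^ k = exp (k * l) := by
    intro k
    rw [hSl, ← exp_nat_mul]
  set T := a ^ 3 * S ^ 3 * l with hT
  have hTκ : 98 * T ≤ S ^ κ := by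
    rw [norm_of_nonneg (by linarith : (0 : ℝ) ≤ l),
      norm_of_nonneg (rpow_nonneg hS0.le _)] at hlog
    have e1 : S ^ κ = S ^ (κ - 3) * S ^ 3 := by
      rw [← rpow_natCast, ← rpow_add hS0]; norm_num
    rw [e1, hT]
    have h2 : 98 * a ^ 3 * l ≤ S ^ (κ - 3) := by
      have h3 : 98 * a ^ 3 * l ≤ 98 * a ^ 3 * (1 / (98 * a ^ 3) * S ^ (κ - 3)) :=
        mul_le_mul_of_nonneg_left hlog (by positivity)
      have h4 : 98 * a ^ 3 * (1 / (98 * a ^ 3) * S ^ (κ - 3)) = S ^ (κ - 3) := by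
        field_simp
      linarith
    calc 98 * (a ^ 3 * S ^ 3 * l) = (98 * a ^ 3 * l) * S ^ 3 := by ring
      _ ≤ _ := mul_le_mul_of_nonneg_right h2 (by positivity)
  have hAS : A * S ≤ a * S := by nlinarith
  have hAS0 : 0 ≤ A * S := by positivity
  have haS : 1 ≤ a * S := by nlinarith
  have hasl : a * S ≤ a * S * l := le_mul_of_one_le_right (by positivity) hl1
  have hT1 : a * S * l ≤ T := by
    have : 1 ≤ a ^ 2 * S ^ 2 := by
      have := one_le_pow₀ haS (n := 2)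
      rwa [mul_pow] at this
    calc a * S * l ≤ (a * S * l) * (a ^ 2 * S ^ 2) :=
          le_mul_of_one_le_right (by positivity) this
      _ = T := by rw [hT]; ring
  have hT2 : a ^ 2 * S ^ 2 * l ≤ T := by
    calc a ^ 2 * S ^ 2 * l ≤ (a ^ 2 * S ^ 2 * l) * (a * S) :=
          le_mul_of_one_le_right (by positivity) haS
      _ = T := by rw [hT]; ring
  have hTpos : 0 < T := by positivity
  refine ⟨?_, ?_, ?_, ?_⟩
  · have : 2 * A ^ 2 ≤ S := by nlinarith
    calc 2 * (A * S) ^ 2 = (2 * A ^ 2) * S ^ 2 := by ring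
      _ ≤ S * S ^ 2 := mul_le_mul_of_nonneg_right this (by positivity)
      _ = S ^ 3 := by ring
  · calc A * S ≤ S * S := mul_le_mul_of_nonneg_right hSA' hS0.le
      _ ≤ S * S * S := le_mul_of_one_le_right (by positivity) (by linarith)
      _ = S ^ 3 := by ring
  · rw [exp_lt_one_iff]
    linarith
  intro D n K hD hn hK
  have hD0 : (0 : ℝ) ≤ D := Nat.cast_nonneg D
  have hDa : (D : ℝ) ≤ a * S := hD.trans hAS
  have hDS : (D : ℝ) ≤ S ^ 2 := by
    calc (D : ℝ) ≤ A * S := hD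
      _ ≤ S * S := mul_le_mul_of_nonneg_right hSA' hS0.le
      _ = S ^ 2 := by ring
  have hD2 : (D : ℝ) ^ 2 ≤ a ^ 2 * S ^ 2 := by
    calc (D : ℝ) ^ 2 ≤ (a * S) ^ 2 := pow_le_pow_left₀ hD0 hDa 2
      _ = _ := by ring
  have hn2 : (n : ℝ) ≤ 2 * (a ^ 2 * S ^ 2) := by linarith
  have hD4 : (D : ℝ) ^ 2 ≤ S ^ 4 := by
    calc (D : ℝ) ^ 2 ≤ (S ^ 2) ^ 2 := pow_le_pow_left₀ hD0 hDS 2
      _ = _ := by ring
  have hK0 : 2 ≤ K := by rw [hK]; nlinarith [sq_nonneg (D : ℝ)]
  have hS4 : 1 ≤ S ^ 4 := one_le_pow₀ (by linarith)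
  have hK5 : 4 * K ≤ S ^ 5 := by
    have e : S ^ 5 = S * S ^ 4 := by ring
    rw [hK, e]
    nlinarith
  -- elementary bounds
  have c1 : 4 * K ^ 2 * t ≤ exp (11 * l) := by
    have h1 := hSk 11
    push_cast at h1
    rw [← h1]
    have h2 : (4 * K) ^ 2 ≤ (S ^ 5) ^ 2 := pow_le_pow_left₀ (by linarith) hK5 2
    have h3 : 4 * K ^ 2 ≤ S ^ 10 := by nlinarith [sq_nonneg K]
    calc 4 * K ^ 2 * t ≤ S ^ 10 * S := mul_le_mul h3 hSt (by linarith) (by positivity)
      _ = S ^ 11 := by ring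
  have c2 : 1 + K ≤ exp (5 * l) := by
    have h1 := hSk 5
    push_cast at h1
    rw [← h1]; linarith
  have c3 : 4 * K ≤ exp (5 * l) := by
    have h1 := hSk 5
    push_cast at h1
    rw [← h1]; exact hK5
  have c4 : t * (1 + 2 * K) ≤ exp (6 * l) := by
    have h1 := hSk 6
    push_cast at h1
    rw [← h1]
    have h3 : 1 + 2 * K ≤ S ^ 5 := by linarith
    calc t * (1 + 2 * K) ≤ S * S ^ 5 := mul_le_mul hSt h3 (by linarith) hS0.le
      _ = S ^ 6 := by ring
  have c5 : t ≤ exp l := by rw [← hSl]; exact hSt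
  have c6 : (2 : ℝ) ≤ exp l := by rw [← hSl]; linarith
  have c7 : (D : ℝ) ≤ exp (2 * l) := by
    have h1 := hSk 2
    push_cast at h1
    rw [← h1]; exact hDS
  have c8 : (D : ℝ) + 1 ≤ exp (3 * l) := by
    have h1 := hSk 3
    push_cast at h1
    rw [← h1]
    have : S ^ 3 = S * S ^ 2 := by ring
    nlinarith
  -- X1
  have x1 : 2 * exp (A * S) * (D + 1) * (4 * K ^ 2 * t) ^ D ≤ exp (16 * (a * S * l)) := by
    have h1 : (4 * K ^ 2 * t) ^ D ≤ exp (A * S * (11 * l)) :=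
      pw _ _ _ D (by positivity) (by positivity) c1 hD
    calc _ ≤ exp l * exp (A * S) * exp (3 * l) * exp (A * S * (11 * l)) := by
          gcongr
      _ = exp (l + A * S + 3 * l + A * S * (11 * l)) := by
          rw [exp_add, exp_add, exp_add]
      _ ≤ _ := by
          apply exp_le_exp.mpr
          have h5 : l ≤ a * S * l := le_mul_of_one_le_left (by linarith) haS
          have h6 : A * S * l ≤ a * S * l := mul_le_mul_of_nonneg_right hAS (by linarith)
          nlinarith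
  have x1n : (2 * exp (A * S) * (D + 1) * (4 * K ^ 2 * t) ^ D) ^ n ≤ exp (32 * T) := by
    refine (pw _ _ _ n (by positivity) (by positivity) x1 hn2).trans (le_of_eq ?_)
    congr 1; rw [hT]; ring
  -- X2
  have x2 : exp (A * S) * (1 + K) ^ D ≤ exp (6 * (a * S * l)) := by
    have h1 : (1 + K) ^ D ≤ exp (A * S * (5 * l)) :=
      pw _ _ _ D (by linarith) (by positivity) c2 hD
    calc _ ≤ exp (A * S) * exp (A * S * (5 * l)) := by gcongr
      _ = exp (A * S + A * S * (5 * l)) := by rw [exp_add]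
      _ ≤ _ := by
          apply exp_le_exp.mpr
          have h6 : A * S * l ≤ a * S * l := mul_le_mul_of_nonneg_right hAS (by linarith)
          nlinarith
  have hKp : (0 : ℝ) < K := by linarith
  have x2n : ((exp (A * S) * (1 + K) ^ D) ^ (2 * D)) ^ (2 * D) ≤ exp (24 * T) := by
    rw [← pow_mul]
    have h9 : ((2 * D * (2 * D) : ℕ) : ℝ) ≤ 4 * (a ^ 2 * S ^ 2) := by
      push_cast; nlinarith
    refine (pw _ _ _ _ (by positivity) (by positivity) x2 h9).trans (le_of_eq ?_)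
    congr 1; rw [hT]; ring
  -- X3
  have x3 : (4 * K) ^ n ≤ exp (10 * T) := by
    refine (pw _ _ _ n (by positivity) (by positivity) c3 hn2).trans (exp_le_exp.mpr ?_)
    nlinarith
  -- X4
  have x4 : 2 * exp (A * S) * (t * (1 + 2 * K)) ^ D ≤ exp (8 * (a * S * l)) := by
    have h1 : (t * (1 + 2 * K)) ^ D ≤ exp (A * S * (6 * l)) :=
      pw _ _ _ D (by positivity) (by positivity) c4 hD
    calc _ ≤ exp l * exp (A * S) * exp (A * S * (6 * l)) := by gcongr
      _ = exp (l + A * S + A * S * (6 * l)) := by rw [exp_add, exp_add]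
      _ ≤ _ := by
          apply exp_le_exp.mpr
          have h5 : l ≤ a * S * l := le_mul_of_one_le_left (by linarith) haS
          have h6 : A * S * l ≤ a * S * l := mul_le_mul_of_nonneg_right hAS (by linarith)
          nlinarith
  have x4n : (2 * exp (A * S) * (t * (1 + 2 * K)) ^ D) ^ (2 * D) ≤ exp (16 * T) := by
    have h9 : ((2 * D : ℕ) : ℝ) ≤ 2 * (a * S) := by push_cast; linarith
    refine (pw _ _ _ _ (by positivity) (by positivity) x4 h9).trans (exp_le_exp.mpr ?_)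
    calc 2 * (a * S) * (8 * (a * S * l)) = 16 * (a ^ 2 * S ^ 2 * l) := by ring
      _ ≤ _ := by linarith
  have x5 : t ^ D ≤ exp T := by
    refine (pw _ _ _ D (by positivity) (by positivity) c5 hDa).trans (exp_le_exp.mpr ?_)
    exact hT1
  have x6 : (D : ℝ) ≤ exp (2 * T) := by
    refine c7.trans (exp_le_exp.mpr ?_)
    have h5 : l ≤ a * S * l := le_mul_of_one_le_left (by linarith) haS
    linarith
  have x7 : (2 : ℝ) ≤ exp T := by
    refine c6.trans (exp_le_exp.mpr ?_)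
    have h5 : l ≤ a * S * l := le_mul_of_one_le_left (by linarith) haS
    linarith
  have x8 : exp (A * S - S ^ κ) ≤ exp (T - S ^ κ) := by
    apply exp_le_exp.mpr
    linarith
  have hmax : max (exp (A * S - S ^ κ)) ((4 * K) ^ n *
            ((2 * exp (A * S - S ^ κ)) * (D * t ^ D) *
              (2 * exp (A * S) * (t * (1 + 2 * K)) ^ D) ^ (2 * D))) ≤ exp (31 * T - S ^ κ) := by
    apply max_le
    · refine x8.trans (exp_le_exp.mpr ?_)
      linarith
    · calc _ ≤ exp (10 * T) * ((exp T * exp (T - S ^ κ)) * (exp (2 * T) * exp T) *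
              exp (16 * T)) := by gcongr
        _ = exp (31 * T - S ^ κ) := by
            rw [← exp_add, ← exp_add, ← exp_add, ← exp_add, ← exp_add]
            congr 1; ring
  calc _ ≤ exp (32 * T) * exp (24 * T) * exp (31 * T - S ^ κ) := by
        gcongr
    _ = exp (87 * T - S ^ κ) := by
        rw [← exp_add, ← exp_add]; congr 1; ring
    _ < 1 := by
        rw [exp_lt_one_iff]; linarith

end Pool.Agent.Helper14.LC
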