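import Pool.Agent.Helper14.LC.Stub

/-! # Block C of LT: transfer to the complex numbers -/

namespace Pool.Agent.Helper14.LC

open Polynomial

theorem aeval_hom {K L : Type} [CommRing K] [CommRing L] (φ : K →+* L) (x : Fin 2 → K)
    (Q : MvPolynomial (Fin 2) ℤ) :
    MvPolynomial.aeval (fun i => φ (x i)) Q = φ (MvPolynomial.aeval x Q) := by
  have h1 : (MvPolynomial.aeval (fun i => φ (x i)) : MvPolynomial (Fin 2) ℤ →ₐ[ℤ] L).toRingHom =
      φ.comp (MvPolynomial.aeval x : MvPolynomial (Fin 2) ℤ →ₐ[ℤ] K).toRingHom := by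
    apply MvPolynomial.ringHom_ext
    · intro a; simp
    · intro i; simp
  exact congrArg (fun f : MvPolynomial (Fin 2) ℤ →+* L => f Q) h1

theorem split_C (Q₁ Q₂ : MvPolynomial (Fin 2) ℤ) (hR : Rs Q₁ Q₂ ≠ 0) :
    ∃ r : Fin (Rs Q₁ Q₂).natDegree → Fin 2 → ℂ,
      (∀ j, MvPolynomial.aeval (r j) Q₁ = 0 ∧ MvPolynomial.aeval (r j) Q₂ = 0) ∧
      (∀ h : ℂ, ev1 h (Rs Q₁ Q₂) =
        C (aeval h (Rs Q₁ Q₂).leadingCoeff) * ∏ j, (X - C (r j 0 + r j 1 * h))) ∧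
      ∀ (h₁ h₂ : ℤ) (Q : MvPolynomial (Fin 2) ℤ) (D : ℕ), Q.totalDegree ≤ D → h₁ ≠ h₂ →
        ∃ N : ℤ, (N : ℂ) =
          ((((Rs Q₁ Q₂).leadingCoeff.eval h₁ * (Rs Q₁ Q₂).leadingCoeff.eval h₂ : ℤ)) : ℂ) ^ D *
            ∏ j, (((h₁ - h₂ : ℤ) : ℂ) ^ D * MvPolynomial.aeval (r j) Q) := by
  classical
  obtain ⟨r, hr1, hr2⟩ := Rs_split (AlgebraicClosure ℚ) Q₁ Q₂ hR
  have : Algebra.IsAlgebraic ℚ (AlgebraicClosure ℚ) := AlgebraicClosure.isAlgebraic ℚ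
  set φ : AlgebraicClosure ℚ →+* ℂ :=
    (IsAlgClosed.lift (R := ℚ) (S := AlgebraicClosure ℚ) (M := ℂ)).toRingHom with hφ
  refine ⟨fun j i => φ (r j i), fun j => ⟨?_, ?_⟩, ?_, ?_⟩
  · rw [aeval_hom φ (r j) Q₁, (hr1 j).1, map_zero]
  · rw [aeval_hom φ (r j) Q₂, (hr1 j).2, map_zero]
  · intro h
    have h1 := congrArg (mapRingHom (eval₂RingHom φ h)) hr2
    rw [map_mul, map_prod] at h1
    have h2 : (mapRingHom (eval₂RingHom φ h))
        ((Rs Q₁ Q₂).map (mapRingHom (Int.castRingHom (AlgebraicClosure ℚ)))) =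
          ev1 h (Rs Q₁ Q₂) := by
      have h3 : (mapRingHom (eval₂RingHom φ h)).comp
          (mapRingHom (mapRingHom (Int.castRingHom (AlgebraicClosure ℚ)))) = ev1 h := by
        rw [ev1, mapRingHom_comp]
        congr 1
        apply Polynomial.ringHom_ext
        · intro a; simp
        · simp
      exact congrArg (fun f : ℤ[X][X] →+* ℂ[X] => f (Rs Q₁ Q₂)) h3
    rw [h2] at h1
    rw [h1]
    congr 1
    · rw [coe_mapRingHom, map_C, coe_eval₂RingHom, eval₂_map, aeval_def]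
      congr 2
      exact RingHom.ext_int _ _
    · refine Finset.prod_congr rfl fun j _ => ?_
      simp
  · intro h₁ h₂ Q D hQ hh
    obtain ⟨N, hN⟩ := prod_int (Rs Q₁ Q₂) hR r hr2 h₁ h₂ Q D hQ hh
    refine ⟨N, ?_⟩
    have h4 := congrArg φ hN
    rw [map_intCast, map_mul, map_pow, map_prod, map_intCast] at h4
    rw [h4]
    congr 1
    refine Finset.prod_congr rfl fun j _ => ?_
    rw [map_mul, map_pow, map_intCast, aeval_hom φ (r j) Q]
    rfl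

end Pool.Agent.Helper14.LC
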