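import Pool.Agent.Helper14.LC.Sub
import Pool.Agent.Helper29.LC.Noe
import Pool.Agent.Helper29.LC.Int
import Pool.Agent.Helper60.LC.Rs
import Pool.Agent.Helper94.LC.Nr

/-! # Block C of LT: collection of the sub-blocks -/

namespace Pool.Agent.Helper14.LC

open Polynomial

theorem noether {σ : Type} [Fintype σ] (ρ : σ → ℂ) (h0 : ∀ i, ρ i ≠ 0)
    (htr : ∀ i j k : σ, ¬ AlgebraicIndependent ℚ ![ρ i, ρ j, ρ k]) :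
    ∃ (θ : Fin 2 → ℂ) (d : ℕ) (a : ℤ) (μ : σ → Fin d → MvPolynomial (Fin 2) ℤ), 0 < d ∧ a ≠ 0 ∧
      (∀ i (j : Fin d), (j : ℕ) = 0 → μ i j = MvPolynomial.C a) ∧
      ∀ i, (a : ℂ) * ρ i ^ d + ∑ j : Fin d, MvPolynomial.aeval θ (μ i j) * ρ i ^ (j : ℕ) = 0 :=
  Pool.Agent.Helper29.LC.noether ρ h0 htr

theorem norms_of {σ : Type} [Fintype σ] (ρ : σ → ℂ) (θ : Fin 2 → ℂ) (d : ℕ) (hd : 0 < d)
    (a : ℤ) (ha : a ≠ 0) (μ : σ → Fin d → MvPolynomial (Fin 2) ℤ)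
    (hμ0 : ∀ i (j : Fin d), (j : ℕ) = 0 → μ i j = MvPolynomial.C a)
    (hμ : ∀ i, (a : ℂ) * ρ i ^ d +
      ∑ j : Fin d, MvPolynomial.aeval θ (μ i j) * ρ i ^ (j : ℕ) = 0) :
    ∃ (A : ℝ) (Z : (Fin 2 → ℂ) → Finset (σ → ℂ)), 1 ≤ A ∧
      (∀ x, ((Z x).card : ℝ) ≤ A) ∧ (∀ x, ∀ z ∈ Z x, ∀ i, z i ≠ 0) ∧
      ∀ S : ℝ, 1 ≤ S → ∀ P : MvPolynomial σ ℤ, (P.totalDegree : ℝ) ≤ S → len P ≤ Real.exp S →
        ∃ Q : MvPolynomial (Fin 2) ℤ, (Q.totalDegree : ℝ) ≤ A * S ∧ len Q ≤ Real.exp (A * S) ∧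
          ‖MvPolynomial.aeval θ Q‖ ≤ ‖MvPolynomial.aeval ρ P‖ * Real.exp (A * S) ∧
          ∀ x, MvPolynomial.aeval x Q = 0 → ∃ z ∈ Z x, MvPolynomial.aeval z P = 0 :=
  Pool.Agent.Helper94.LC.norms_of ρ θ d hd a ha μ hμ0 hμ

theorem Rs_ev {R : Type} [CommRing R] (l h : R) (Q₁ Q₂ : MvPolynomial (Fin 2) ℤ) :
    ev l h (Rs Q₁ Q₂) =
      resultant (sb l h Q₁) (sb l h Q₂) Q₁.totalDegree Q₂.totalDegree :=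
  Pool.Agent.Helper60.LC.Rs_ev l h Q₁ Q₂

theorem Rs_HD (Q₁ Q₂ : MvPolynomial (Fin 2) ℤ) (D : ℕ) (h₁ : Q₁.totalDegree ≤ D)
    (h₂ : Q₂.totalDegree ≤ D) : HD (2 * D ^ 2) (Rs Q₁ Q₂) :=
  Pool.Agent.Helper60.LC.Rs_HD Q₁ Q₂ D h₁ h₂

theorem Rs_ne (Q₁ : MvPolynomial (Fin 2) ℤ) (hQ : Q₁ ≠ 0) :
    ∃ E : Finset (Fin 2 → ℂ), E.card ≤ Q₁.totalDegree ∧
      ∀ Q₂ : MvPolynomial (Fin 2) ℤ, (∀ x ∈ E, MvPolynomial.aeval x Q₂ ≠ 0) →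
        Rs Q₁ Q₂ ≠ 0 :=
  Pool.Agent.Helper60.LC.Rs_ne Q₁ hQ

theorem Rs_split (k : Type) [Field k] [IsAlgClosed k] [CharZero k]
    (Q₁ Q₂ : MvPolynomial (Fin 2) ℤ) (hR : Rs Q₁ Q₂ ≠ 0) :
    ∃ r : Fin (Rs Q₁ Q₂).natDegree → Fin 2 → k,
      (∀ j, MvPolynomial.aeval (r j) Q₁ = 0 ∧ MvPolynomial.aeval (r j) Q₂ = 0) ∧
      (Rs Q₁ Q₂).map (mapRingHom (Int.castRingHom k)) =
        C ((Rs Q₁ Q₂).leadingCoeff.map (Int.castRingHom k)) *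
          ∏ j, (X - C (C (r j 0) + C (r j 1) * X)) :=
  Pool.Agent.Helper60.LC.Rs_split k Q₁ Q₂ hR

theorem prod_int (F : ℤ[X][X]) (hF : F ≠ 0)
    (r : Fin F.natDegree → Fin 2 → AlgebraicClosure ℚ)
    (hr : F.map (mapRingHom (Int.castRingHom (AlgebraicClosure ℚ))) =
      C (F.leadingCoeff.map (Int.castRingHom (AlgebraicClosure ℚ))) *
          ∏ j, (X - C (C (r j 0) + C (r j 1) * X)))
    (h₁ h₂ : ℤ) (Q : MvPolynomial (Fin 2) ℤ) (D : ℕ) (hQ : Q.totalDegree ≤ D)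
    (hh : h₁ ≠ h₂) :
    ∃ N : ℤ, (N : AlgebraicClosure ℚ) =
      (((F.leadingCoeff.eval h₁ * F.leadingCoeff.eval h₂ : ℤ)) : AlgebraicClosure ℚ) ^ D *
        ∏ j, (((h₁ - h₂ : ℤ) : AlgebraicClosure ℚ) ^ D * MvPolynomial.aeval (r j) Q) :=
  Pool.Agent.Helper29.LC.prod_int F hF r hr h₁ h₂ Q D hQ hh

end Pool.Agent.Helper14.LC
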