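import Pool.Agent.Helper14.LC.Df

/-! # Block C of LT: exact statements of the sub-blocks (do not import this file) -/

namespace Pool.Agent.Helper14.LC.Tg

open Polynomial Pool.Agent.Helper14.LC

/-! ## LCA (Noether) -/

theorem noether {σ : Type} [Fintype σ] (ρ : σ → ℂ) (h0 : ∀ i, ρ i ≠ 0)
    (htr : ∀ i j k : σ, ¬ AlgebraicIndependent ℚ ![ρ i, ρ j, ρ k]) :
    ∃ (θ : Fin 2 → ℂ) (d : ℕ) (a : ℤ) (μ : σ → Fin d → MvPolynomial (Fin 2) ℤ), 0 < d ∧ a ≠ 0 ∧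
      (∀ i (j : Fin d), (j : ℕ) = 0 → μ i j = MvPolynomial.C a) ∧
      ∀ i, (a : ℂ) * ρ i ^ d + ∑ j : Fin d, MvPolynomial.aeval θ (μ i j) * ρ i ^ (j : ℕ) = 0 := by
  sorry

/-! ## LCB (norm forms) -/

theorem norms_of {σ : Type} [Fintype σ] (ρ : σ → ℂ) (θ : Fin 2 → ℂ) (d : ℕ) (hd : 0 < d)
    (a : ℤ) (ha : a ≠ 0) (μ : σ → Fin d → MvPolynomial (Fin 2) ℤ)
    (hμ0 : ∀ i (j : Fin d), (j : ℕ) = 0 → μ i j = MvPolynomial.C a)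
    (hμ : ∀ i, (a : ℂ) * ρ i ^ d +
      ∑ j : Fin d, MvPolynomial.aeval θ (μ i j) * ρ i ^ (j : ℕ) = 0) :
    ∃ (A : ℝ) (Z : (Fin 2 → ℂ) → Finset (σ → ℂ)), 1 ≤ A ∧
      (∀ x, ((Z x).card : ℝ) ≤ A) ∧ (∀ x, ∀ z ∈ Z x, ∀ i, z i ≠ 0) ∧
      ∀ S : ℝ, 1 ≤ S → ∀ P : MvPolynomial σ ℤ, (P.totalDegree : ℝ) ≤ S → len P ≤ Real.exp S →
        ∃ Q : MvPolynomial (Fin 2) ℤ, (Q.totalDegree : ℝ) ≤ A * S ∧ len Q ≤ Real.exp (A * S) ∧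
          ‖MvPolynomial.aeval θ Q‖ ≤ ‖MvPolynomial.aeval ρ P‖ * Real.exp (A * S) ∧
          ∀ x, MvPolynomial.aeval x Q = 0 → ∃ z ∈ Z x, MvPolynomial.aeval z P = 0 := by
  sorry

/-! ## LCC (resultant) -/

theorem Rs_ev {R : Type} [CommRing R] (l h : R) (Q₁ Q₂ : MvPolynomial (Fin 2) ℤ) :
    ev l h (Rs Q₁ Q₂) =
      resultant (sb l h Q₁) (sb l h Q₂) Q₁.totalDegree Q₂.totalDegree := by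
  sorry

theorem Rs_HD (Q₁ Q₂ : MvPolynomial (Fin 2) ℤ) (D : ℕ) (h₁ : Q₁.totalDegree ≤ D)
    (h₂ : Q₂.totalDegree ≤ D) : HD (2 * D ^ 2) (Rs Q₁ Q₂) := by
  sorry

theorem Rs_ne (Q₁ : MvPolynomial (Fin 2) ℤ) (hQ : Q₁ ≠ 0) :
    ∃ E : Finset (Fin 2 → ℂ), E.card ≤ Q₁.totalDegree ∧
      ∀ Q₂ : MvPolynomial (Fin 2) ℤ, (∀ x ∈ E, MvPolynomial.aeval x Q₂ ≠ 0) →
        Rs Q₁ Q₂ ≠ 0 := by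
  sorry

theorem Rs_split (k : Type) [Field k] [IsAlgClosed k] [CharZero k]
    (Q₁ Q₂ : MvPolynomial (Fin 2) ℤ) (hR : Rs Q₁ Q₂ ≠ 0) :
    ∃ r : Fin (Rs Q₁ Q₂).natDegree → Fin 2 → k,
      (∀ j, MvPolynomial.aeval (r j) Q₁ = 0 ∧ MvPolynomial.aeval (r j) Q₂ = 0) ∧
      (Rs Q₁ Q₂).map (mapRingHom (Int.castRingHom k)) =
        C ((Rs Q₁ Q₂).leadingCoeff.map (Int.castRingHom k)) *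
          ∏ j, (X - C (C (r j 0) + C (r j 1) * X)) := by
  sorry

/-! ## LCD (integrality) -/

theorem prod_int (F : ℤ[X][X]) (hF : F ≠ 0)
    (r : Fin F.natDegree → Fin 2 → AlgebraicClosure ℚ)
    (hr : F.map (mapRingHom (Int.castRingHom (AlgebraicClosure ℚ))) =
      C (F.leadingCoeff.map (Int.castRingHom (AlgebraicClosure ℚ))) *
          ∏ j, (X - C (C (r j 0) + C (r j 1) * X)))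
    (h₁ h₂ : ℤ) (Q : MvPolynomial (Fin 2) ℤ) (D : ℕ) (hQ : Q.totalDegree ≤ D)
    (hh : h₁ ≠ h₂) :
    ∃ N : ℤ, (N : AlgebraicClosure ℚ) =
      (((F.leadingCoeff.eval h₁ * F.leadingCoeff.eval h₂ : ℤ)) : AlgebraicClosure ℚ) ^ D *
        ∏ j, (((h₁ - h₂ : ℤ) : AlgebraicClosure ℚ) ^ D * MvPolynomial.aeval (r j) Q) := by
  sorry

/-! ## LCE (transfer to the complex numbers) -/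

theorem split_C (Q₁ Q₂ : MvPolynomial (Fin 2) ℤ) (hR : Rs Q₁ Q₂ ≠ 0) :
    ∃ r : Fin (Rs Q₁ Q₂).natDegree → Fin 2 → ℂ,
      (∀ j, MvPolynomial.aeval (r j) Q₁ = 0 ∧ MvPolynomial.aeval (r j) Q₂ = 0) ∧
      (∀ h : ℂ, ev1 h (Rs Q₁ Q₂) =
        C (aeval h (Rs Q₁ Q₂).leadingCoeff) * ∏ j, (X - C (r j 0 + r j 1 * h))) ∧
      ∀ (h₁ h₂ : ℤ) (Q : MvPolynomial (Fin 2) ℤ) (D : ℕ), Q.totalDegree ≤ D → h₁ ≠ h₂ →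
        ∃ N : ℤ, (N : ℂ) =
          ((((Rs Q₁ Q₂).leadingCoeff.eval h₁ * (Rs Q₁ Q₂).leadingCoeff.eval h₂ : ℤ)) : ℂ) ^ D *
            ∏ j, (((h₁ - h₂ : ℤ) : ℂ) ^ D * MvPolynomial.aeval (r j) Q) := by
  sorry

/-! ## LCF (bounds for the resultant) -/

theorem Rs_small (Q₁ Q₂ : MvPolynomial (Fin 2) ℤ) (D : ℕ) (h₁ : Q₁.totalDegree ≤ D)
    (h₂ : Q₂.totalDegree ≤ D) (hd : Q₁.totalDegree ≠ 0) (θ : Fin 2 → ℂ) (h : ℤ) (K t b : ℝ)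
    (hK : |(h : ℝ)| ≤ K) (ht : ∀ i, ‖θ i‖ ≤ t) (ht1 : 1 ≤ t) (hb : 1 ≤ b) (hb₁ : len Q₁ ≤ b)
    (hb₂ : len Q₂ ≤ b) :
    ‖ev (θ 0 + h * θ 1) (h : ℂ) (Rs Q₁ Q₂)‖ ≤
      (‖MvPolynomial.aeval θ Q₁‖ + ‖MvPolynomial.aeval θ Q₂‖) * (D * t ^ D) *
        (2 * b * (t * (1 + 2 * K)) ^ D) ^ (2 * D) := by
  sorry

theorem Rs_mahler (Q₁ Q₂ : MvPolynomial (Fin 2) ℤ) (D : ℕ) (h₁ : Q₁.totalDegree ≤ D)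
    (h₂ : Q₂.totalDegree ≤ D) (h : ℤ) (K b : ℝ) (hK : |(h : ℝ)| ≤ K) (hb : 1 ≤ b)
    (hb₁ : len Q₁ ≤ b) (hb₂ : len Q₂ ≤ b) (n : ℕ) (a : ℂ) (r : Fin n → ℂ)
    (hr : ev1 (h : ℂ) (Rs Q₁ Q₂) = C a * ∏ j, (X - C (r j))) :
    ‖a‖ * ∏ j, max 1 ‖r j‖ ≤ (b * (1 + K) ^ D) ^ (2 * D) := by
  sorry

/-! ## LCG (choice of h, final estimate) -/

theorem good_h (n : ℕ) (r : Fin n → Fin 2 → ℂ) (θ : Fin 2 → ℂ) (c : ℤ[X]) (hc : c ≠ 0)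
    (K : ℕ) (hK : n + c.natDegree + 2 ≤ K) :
    ∃ h₁ h₂ : ℤ, |(h₁ : ℝ)| ≤ K ∧ |(h₂ : ℝ)| ≤ K ∧ h₁ ≠ h₂ ∧ c.eval h₁ ≠ 0 ∧ c.eval h₂ ≠ 0 ∧
      ∀ j i, ‖r j i - θ i‖ ≤ 4 * K * ‖(θ 0 + h₁ * θ 1) - (r j 0 + r j 1 * h₁)‖ := by
  sorry

theorem est (n D : ℕ) (K b B t ε η : ℝ) (hK : 1 ≤ K) (hb : 1 ≤ b) (ht1 : 1 ≤ t) (hε : ε ≤ 1)
    (θ : Fin 2 → ℂ) (ht : ∀ i, ‖θ i‖ ≤ t) (r : Fin n → Fin 2 → ℂ) (a₁ a₂ h₁ h₂ : ℤ)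
    (hh : h₁ ≠ h₂) (hK₁ : |(h₁ : ℝ)| ≤ K) (hK₂ : |(h₂ : ℝ)| ≤ K) (ha₁ : a₁ ≠ 0) (ha₂ : a₂ ≠ 0)
    (Q : MvPolynomial (Fin 2) ℤ) (hQ : Q.totalDegree ≤ D) (hQb : len Q ≤ b)
    (hQε : ‖MvPolynomial.aeval θ Q‖ ≤ ε)
    (hg : ∀ j i, ‖r j i - θ i‖ ≤ 4 * K * ‖(θ 0 + h₁ * θ 1) - (r j 0 + r j 1 * h₁)‖)
    (hη : ‖(a₁ : ℂ)‖ * ∏ j, ‖(θ 0 + h₁ * θ 1) - (r j 0 + r j 1 * h₁)‖ ≤ η)
    (hB₁ : ‖(a₁ : ℂ)‖ * ∏ j, max 1 ‖r j 0 + r j 1 * h₁‖ ≤ B)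
    (hB₂ : ‖(a₂ : ℂ)‖ * ∏ j, max 1 ‖r j 0 + r j 1 * h₂‖ ≤ B) :
    ‖((a₁ * a₂ : ℤ) : ℂ) ^ D * ∏ j, (((h₁ - h₂ : ℤ) : ℂ) ^ D * MvPolynomial.aeval (r j) Q)‖ ≤
      (2 * b * (D + 1) * (4 * K ^ 2 * t) ^ D) ^ n * B ^ (2 * D) * max ε ((4 * K) ^ n * η) := by
  sorry

/-! ## LCH (the core) -/

theorem three (θ : Fin 2 → ℂ) (κ A : ℝ) (hκ : 3 < κ) (hA : 0 < A) :
    ∃ S0 : ℝ, ∀ S : ℝ, S0 ≤ S →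
      ¬ (∀ E : Finset (Fin 2 → ℂ), (E.card : ℝ) ≤ S ^ 3 →
        ∃ Q : MvPolynomial (Fin 2) ℤ, (Q.totalDegree : ℝ) ≤ A * S ∧ len Q ≤ Real.exp (A * S) ∧
          ‖MvPolynomial.aeval θ Q‖ ≤ Real.exp (A * S - S ^ κ) ∧
          ∀ x ∈ E, MvPolynomial.aeval x Q ≠ 0) := by
  sorry

/-! ## LCI (avoidance) -/

theorem avoid {W : Type} (E : Finset W) (N : ℕ) (f : Fin N → W → ℂ)
    (h : ∀ z ∈ E, ∃ j, f j z ≠ 0) :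
    ∃ c : Fin N → ℕ, (∀ j, c j ≤ E.card) ∧ ∀ z ∈ E, ∑ j, (c j : ℂ) * f j z ≠ 0 := by
  sorry

/-! ## LCJ (main) -/

theorem C_main {σ : Type} [Fintype σ] (ρ : σ → ℂ) (h0 : ∀ i, ρ i ≠ 0)
    (htr : ∀ i j k : σ, ¬ AlgebraicIndependent ℚ ![ρ i, ρ j, ρ k]) (κ : ℝ) (hκ : 3 < κ) :
    ∃ S0 : ℝ, ∀ S : ℝ, S0 ≤ S → ∀ (N : ℕ) (P : Fin N → MvPolynomial σ ℤ),
      (N : ℝ) ≤ Real.exp S → (∀ i, ((P i).totalDegree : ℝ) ≤ S) →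
      (∀ i m, |(((P i).coeff m : ℤ) : ℝ)| ≤ Real.exp S) →
      (∀ i, ‖MvPolynomial.aeval ρ (P i)‖ ≤ Real.exp (-S ^ κ)) →
      ∃ x : σ → ℂ, (∀ i, x i ≠ 0) ∧ ∀ i, MvPolynomial.aeval x (P i) = 0 := by
  sorry

end Pool.Agent.Helper14.LC.Tg
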