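import Pool.Agent.Helper14.LC.Bnd
import Pool.Agent.Helper14.LC.Good
import Pool.Agent.Helper14.LC.Est
import Pool.Agent.Helper14.LC.Num
import Pool.Agent.Helper14.LC.Spl

/-! # Block C of LT: the core -/

namespace Pool.Agent.Helper14.LC

open Polynomial

theorem eval_ev1 (l h : ℂ) (F : ℤ[X][X]) : (ev1 h F).eval l = ev l h F := by
  rw [ev1, ev, coe_mapRingHom, eval_map, coe_eval₂RingHom]

theorem ev_prod (F : ℤ[X][X]) (n : ℕ) (a h l : ℂ) (r : Fin n → ℂ)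
    (hr : ev1 h F = C a * ∏ j, (X - C (r j))) :
    ev l h F = a * ∏ j, (l - r j) := by
  rw [← eval_ev1, hr, eval_mul, eval_C, eval_prod]
  simp

theorem three (θ : Fin 2 → ℂ) (κ A : ℝ) (hκ : 3 < κ) (hA : 0 < A) :
    ∃ S0 : ℝ, ∀ S : ℝ, S0 ≤ S →
      ¬ (∀ E : Finset (Fin 2 → ℂ), (E.card : ℝ) ≤ S ^ 3 →
        ∃ Q : MvPolynomial (Fin 2) ℤ, (Q.totalDegree : ℝ) ≤ A * S ∧ len Q ≤ Real.exp (A * S) ∧
          ‖MvPolynomial.aeval θ Q‖ ≤ Real.exp (A * S - S ^ κ) ∧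
          ∀ x ∈ E, MvPolynomial.aeval x Q ≠ 0) := by
  classical
  set t := max 1 (max ‖θ 0‖ ‖θ 1‖) with ht
  have ht1 : 1 ≤ t := le_max_left _ _
  have htθ : ∀ i, ‖θ i‖ ≤ t := by
    intro i
    fin_cases i
    · exact (le_max_left _ _).trans (le_max_right _ _)
    · exact (le_max_right _ _).trans (le_max_right _ _)
  obtain ⟨S0, hS01, hS0⟩ := num A t κ hA ht1 hκ
  refine ⟨S0, fun S hS hfam => ?_⟩
  obtain ⟨n1, n2, n3, n4⟩ := hS0 S hS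
  have hS1 : 1 ≤ S := hS01.trans hS
  have hSpos : 0 < S := by linarith
  set D := ⌊A * S⌋₊ with hD
  have hAS0 : 0 ≤ A * S := by positivity
  have hDle : (D : ℝ) ≤ A * S := Nat.floor_le hAS0
  have hdeg : ∀ Q : MvPolynomial (Fin 2) ℤ, (Q.totalDegree : ℝ) ≤ A * S → Q.totalDegree ≤ D :=
    fun Q hQ => Nat.le_floor hQ
  set b := Real.exp (A * S) with hb
  have hb1 : 1 ≤ b := Real.one_le_exp hAS0
  set ε := Real.exp (A * S - S ^ κ) with hε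
  have hS3 : 1 ≤ S ^ 3 := one_le_pow₀ hS1
  -- Q1
  obtain ⟨Q₁, d1, l1, v1, w1⟩ := hfam {0} (by simpa using hS3)
  have hQ1 : Q₁ ≠ 0 := by
    rintro rfl
    exact w1 0 (Finset.mem_singleton_self _) (map_zero _)
  have hQ1d : Q₁.totalDegree ≠ 0 := by
    intro h0
    obtain ⟨c, hc⟩ : ∃ c : ℤ, Q₁ = MvPolynomial.C c := ⟨_, MvPolynomial.totalDegree_eq_zero_iff_eq_C.mp h0⟩
    rw [hc, MvPolynomial.aeval_C] at v1
    have hc0 : c ≠ 0 := by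
      rintro rfl
      exact hQ1 (by rw [hc, map_zero])
    have h1 : (1 : ℝ) ≤ ‖(algebraMap ℤ ℂ) c‖ := by
      rw [eq_intCast, Complex.norm_intCast]
      have h5 : (1 : ℤ) ≤ |c| := Int.one_le_abs hc0
      exact_mod_cast h5
    linarith
  -- Q2
  obtain ⟨E, hE1, hE2⟩ := Rs_ne Q₁ hQ1
  obtain ⟨Q₂, d2, l2, v2, w2⟩ := hfam E (by
    have : (E.card : ℝ) ≤ Q₁.totalDegree := by exact_mod_cast hE1
    linarith)
  have hR := hE2 Q₂ w2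
  obtain ⟨r, hr1, hr2, hr3⟩ := split_C Q₁ Q₂ hR
  have hHD := Rs_HD Q₁ Q₂ D (hdeg _ d1) (hdeg _ d2)
  have hlc : (Rs Q₁ Q₂).leadingCoeff ≠ 0 := leadingCoeff_ne_zero.mpr hR
  have hnd : (Rs Q₁ Q₂).leadingCoeff.natDegree + (Rs Q₁ Q₂).natDegree ≤ 2 * D ^ 2 := hHD _ hlc
  have hn2 : ((Rs Q₁ Q₂).natDegree : ℝ) ≤ 2 * (D : ℝ) ^ 2 := by
    have : (Rs Q₁ Q₂).natDegree ≤ 2 * D ^ 2 := by omega
    exact_mod_cast this
  -- Q3
  obtain ⟨Q₃, d3, l3, v3, w3⟩ := hfam (Finset.univ.image r) (by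
    have h1 : (Finset.univ.image r).card ≤ (Rs Q₁ Q₂).natDegree := by
      simpa using Finset.card_image_le (s := Finset.univ) (f := r)
    have h2 : ((Finset.univ.image r).card : ℝ) ≤ (Rs Q₁ Q₂).natDegree := by exact_mod_cast h1
    have h3 : (D : ℝ) ^ 2 ≤ (A * S) ^ 2 := pow_le_pow_left₀ (Nat.cast_nonneg D) hDle 2
    linarith)
  -- h1, h2
  obtain ⟨h₁, h₂, k1, k2, hne, c1, c2, hg⟩ := good_h _ r θ (Rs Q₁ Q₂).leadingCoeff hlc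
    (2 * D ^ 2 + 2) (by omega)
  set K : ℝ := 2 * (D : ℝ) ^ 2 + 2 with hK
  have hKc : ((2 * D ^ 2 + 2 : ℕ) : ℝ) = K := by rw [hK]; push_cast; ring
  rw [hKc] at k1 k2 hg
  have hK1 : 1 ≤ K := by rw [hK]; nlinarith [sq_nonneg (D : ℝ)]
  set a₁ := (Rs Q₁ Q₂).leadingCoeff.eval h₁ with ha₁
  set a₂ := (Rs Q₁ Q₂).leadingCoeff.eval h₂ with ha₂
  have hae : ∀ h : ℤ, aeval (h : ℂ) (Rs Q₁ Q₂).leadingCoeff =
      (((Rs Q₁ Q₂).leadingCoeff.eval h : ℤ) : ℂ) := by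
    intro h
    rw [aeval_def, eval₂_at_intCast]
    simp
  have m1 := Rs_mahler Q₁ Q₂ D (hdeg _ d1) (hdeg _ d2) h₁ K b k1 hb1 l1 l2 _ _ _ (hr2 h₁)
  have m2 := Rs_mahler Q₁ Q₂ D (hdeg _ d1) (hdeg _ d2) h₂ K b k2 hb1 l1 l2 _ _ _ (hr2 h₂)
  rw [hae] at m1 m2
  have s1 := Rs_small Q₁ Q₂ D (hdeg _ d1) (hdeg _ d2) hQ1d θ h₁ K t b k1 htθ ht1 hb1 l1 l2
  rw [ev_prod _ _ _ _ _ _ (hr2 h₁), hae, norm_mul, norm_prod] at s1
  have hsmall : ‖((a₁ : ℤ) : ℂ)‖ * ∏ j, ‖(θ 0 + h₁ * θ 1) - (r j 0 + r j 1 * h₁)‖ ≤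
      (2 * ε) * (D * t ^ D) * (2 * b * (t * (1 + 2 * K)) ^ D) ^ (2 * D) := by
    refine s1.trans ?_
    refine mul_le_mul_of_nonneg_right ?_ (by positivity)
    refine mul_le_mul_of_nonneg_right ?_ (by positivity)
    linarith
  obtain ⟨N, hN⟩ := hr3 h₁ h₂ Q₃ D (hdeg _ d3) hne
  have hest := est _ D K b ((b * (1 + K) ^ D) ^ (2 * D)) t ε _ hK1 hb1 ht1 n3.le θ htθ r a₁ a₂
    h₁ h₂ hne k1 k2 c1 c2 Q₃ (hdeg _ d3) l3 v3 hg hsmall m1 m2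
  have hlt := hest.trans_lt (n4 D _ K hDle hn2 hK)
  rw [← hN, Complex.norm_intCast] at hlt
  have hN0 : N = 0 := by
    by_contra hne0
    have h5 : (1 : ℤ) ≤ |N| := Int.one_le_abs hne0
    have h6 : (1 : ℝ) ≤ |(N : ℝ)| := by exact_mod_cast h5
    linarith
  rw [hN0, Int.cast_zero] at hN
  have hz := hN.symm
  rw [mul_eq_zero] at hz
  rcases hz with hz | hz
  · have h8 : ((a₁ * a₂ : ℤ) : ℂ) = 0 := by
      by_contra h9
      exact pow_ne_zero D h9 hz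
    have h10 : a₁ * a₂ = 0 := by exact_mod_cast h8
    rcases mul_eq_zero.mp h10 with h | h
    · exact c1 h
    · exact c2 h
  · rw [Finset.prod_eq_zero_iff] at hz
    obtain ⟨j, _, hj⟩ := hz
    rcases mul_eq_zero.mp hj with h | h
    · have h8 : ((h₁ - h₂ : ℤ) : ℂ) = 0 := by
        by_contra h9
        exact pow_ne_zero D h9 h
      have h10 : h₁ - h₂ = 0 := by exact_mod_cast h8
      exact hne (sub_eq_zero.mp h10)
    · exact w3 (r j) (Finset.mem_image_of_mem r (Finset.mem_univ j)) h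

end Pool.Agent.Helper14.LC
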